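import Mathlib

/-!
Bases adapted to the generalized eigenspaces of an endomorphism, and intertwining relations.
-/

namespace Pool.Agent.H735R2.OneSym

open Module

variable {F V V' : Type*} [Field F] [AddCommGroup V] [Module F V] [AddCommGroup V'] [Module F V']

/-- a basis adapted to the generalized eigenspaces -/
theorem exists_adapted [IsAlgClosed F] [FiniteDimensional F V] {N : ℕ} (hN : finrank F V = N)
    (T : End F V) : ∃ (b : Basis (Fin N) F V) (μ : Fin N → F),
      (∀ i, b i ∈ T.maxGenEigenspace (μ i)) ∧
      ∀ (ν : F) (x : V), x ∈ T.maxGenEigenspace ν → ∀ i, b.repr x i ≠ 0 → μ i = ν := by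
  classical
  have hint : DirectSum.IsInternal (fun μ : F => T.maxGenEigenspace μ) :=
    DirectSum.isInternal_submodule_of_iSupIndep_of_iSup_eq_top
      (End.independent_maxGenEigenspace T) (End.iSup_maxGenEigenspace_eq_top T)
  let v : ∀ μ : F, Basis (Fin (finrank F (T.maxGenEigenspace μ))) F (T.maxGenEigenspace μ) :=
    fun μ => Module.finBasis F _
  let B := hint.collectedBasis v
  haveI : Finite (Σ μ : F, Fin (finrank F (T.maxGenEigenspace μ))) := Module.Finite.finite_basis B
  haveI : Fintype (Σ μ : F, Fin (finrank F (T.maxGenEigenspace μ))) := Fintype.ofFinite _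
  have hcard : Fintype.card (Σ μ : F, Fin (finrank F (T.maxGenEigenspace μ))) = N := by
    rw [← hN, Module.finrank_eq_card_basis B]
  let e : (Σ μ : F, Fin (finrank F (T.maxGenEigenspace μ))) ≃ Fin N :=
    Fintype.equivFinOfCardEq hcard
  refine ⟨B.reindex e, fun i => (e.symm i).1, ?_, ?_⟩
  · intro i
    rw [Basis.reindex_apply]
    exact hint.collectedBasis_mem v (e.symm i)
  · intro ν x hx i hi
    rw [Basis.repr_reindex_apply] at hi
    by_contra hne
    apply hi
    have := hint.collectedBasis_repr_of_mem_ne v (j := (e.symm i).1) (a := (e.symm i).2)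
      (fun h => hne h.symm) hx
    exact this

/-- intertwiners map generalized eigenvectors to generalized eigenvectors -/
theorem intertwine (D : End F V) (P : End F V') (X : V →ₗ[F] V') (ν μ : F)
    (h : ν • (X ∘ₗ D) = P ∘ₗ X) {x : V} (hx : x ∈ D.maxGenEigenspace μ) :
    X x ∈ P.maxGenEigenspace (ν * μ) := by
  rw [End.mem_maxGenEigenspace] at hx ⊢
  obtain ⟨k, hk⟩ := hx
  refine ⟨k, ?_⟩
  have key : ∀ (k : ℕ) (y : V), ((P - (ν * μ) • (1 : End F V')) ^ k) (X y) =
      ν ^ k • X (((D - μ • (1 : End F V)) ^ k) y) := by
    intro k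
    induction k with
    | zero => intro y; simp
    | succ k ih =>
      intro y
      rw [pow_succ, Module.End.mul_apply]
      have h1 : (P - (ν * μ) • (1 : End F V')) (X y) = ν • X ((D - μ • (1 : End F V)) y) := by
        have h2 := LinearMap.congr_fun h y
        simp only [LinearMap.smul_apply, LinearMap.comp_apply] at h2
        simp only [LinearMap.sub_apply, LinearMap.smul_apply, Module.End.one_apply, map_sub,
          map_smul, smul_sub]
        rw [← h2, smul_smul]
      rw [h1, map_smul, ih, smul_smul, pow_succ, pow_succ, Module.End.mul_apply]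
      congr 1
      ring
  rw [key, hk, map_zero, smul_zero]

end Pool.Agent.H735R2.OneSym
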