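import Mathlib

/-!
Counting permutations which map a given set onto a given set, and two covering lemmas.
-/

namespace Pool.Agent.H735R2.OneSym

open Finset

theorem exists_perm_map {m : ℕ} {T T' : Finset (Fin m)} (h : T.card = T'.card) :
    ∃ τ : Equiv.Perm (Fin m), T.map τ.toEmbedding = T' := by
  classical
  let e : {x // x ∈ T} ≃ {x // x ∈ T'} := Finset.equivOfCardEq h
  refine ⟨e.extendSubtype, ?_⟩
  apply Finset.eq_of_subset_of_card_le
  · intro y hy
    rw [Finset.mem_map] at hy
    obtain ⟨x, hx, rfl⟩ := hy
    have := e.extendSubtype_apply_of_mem x hx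
    simp only [Equiv.coe_toEmbedding]
    rw [this]
    exact (e ⟨x, hx⟩).2
  · rw [Finset.card_map, h]

theorem card_perm_map {m : ℕ} (S T : Finset (Fin m)) (h : S.card = T.card) :
    (univ.filter fun π : Equiv.Perm (Fin m) => S.map π.toEmbedding = T).card * m.choose S.card
      = m.factorial := by
  classical
  have hg : ∀ T' ∈ powersetCard S.card (univ : Finset (Fin m)),
      (univ.filter fun π : Equiv.Perm (Fin m) => S.map π.toEmbedding = T').card =
      (univ.filter fun π : Equiv.Perm (Fin m) => S.map π.toEmbedding = T).card := by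
    intro T' hT'
    rw [mem_powersetCard] at hT'
    obtain ⟨τ, hτ⟩ := exists_perm_map (T := T') (T' := T) (by rw [hT'.2, h])
    refine Finset.card_bij (fun π _ => τ * π) ?_ ?_ ?_
    · intro π hπ
      rw [mem_filter] at hπ ⊢
      refine ⟨mem_univ _, ?_⟩
      rw [← hτ, ← hπ.2, Finset.map_map]
      rfl
    · intro π _ π' _ hh
      exact mul_left_cancel hh
    · intro π hπ
      rw [mem_filter] at hπ
      refine ⟨τ⁻¹ * π, ?_, by simp⟩
      rw [mem_filter]
      refine ⟨mem_univ _, ?_⟩
      have h2 : (T'.map τ.toEmbedding).map (τ⁻¹).toEmbedding = T' := by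
        rw [Finset.map_map]
        ext x
        simp
      rw [← h2, hτ, ← hπ.2, Finset.map_map]
      rfl
  have hsum : (univ : Finset (Equiv.Perm (Fin m))).card =
      ∑ T' ∈ powersetCard S.card (univ : Finset (Fin m)),
        (univ.filter fun π : Equiv.Perm (Fin m) => S.map π.toEmbedding = T').card := by
    apply Finset.card_eq_sum_card_fiberwise
    intro π _
    rw [mem_coe, mem_powersetCard]
    exact ⟨subset_univ _, card_map _⟩
  rw [Finset.sum_congr rfl hg, Finset.sum_const, Finset.card_powersetCard, Finset.card_univ,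
    Finset.card_univ, Fintype.card_perm, Fintype.card_fin, smul_eq_mul] at hsum
  rw [hsum, mul_comm]

/-- a family of pairs of `t`-sets such that every permutation maps one to the other has at
least `m.choose t` members -/
theorem choose_le_card {m t : ℕ} (𝓕 : Finset (Finset (Fin m) × Finset (Fin m)))
    (h1 : ∀ P ∈ 𝓕, P.1.card = t ∧ P.2.card = t)
    (h2 : ∀ π : Equiv.Perm (Fin m), ∃ P ∈ 𝓕, P.1.map π.toEmbedding = P.2) :
    m.choose t ≤ 𝓕.card := by
  classical
  have h3 : (univ : Finset (Equiv.Perm (Fin m))).card ≤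
      ∑ P ∈ 𝓕, (univ.filter fun π : Equiv.Perm (Fin m) => P.1.map π.toEmbedding = P.2).card := by
    refine le_trans (Finset.card_le_card ?_) Finset.card_biUnion_le
    intro π _
    rw [mem_biUnion]
    obtain ⟨P, hP, hπ⟩ := h2 π
    exact ⟨P, hP, by rw [mem_filter]; exact ⟨mem_univ _, hπ⟩⟩
  rw [Finset.card_univ, Fintype.card_perm, Fintype.card_fin] at h3
  have h4 : m.factorial * m.choose t ≤ 𝓕.card * m.factorial := by
    calc m.factorial * m.choose t ≤ (∑ P ∈ 𝓕, (univ.filter
          fun π : Equiv.Perm (Fin m) => P.1.map π.toEmbedding = P.2).card) * m.choose t :=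
          Nat.mul_le_mul_right _ h3
      _ = ∑ P ∈ 𝓕, m.factorial := by
          rw [Finset.sum_mul]
          refine Finset.sum_congr rfl fun P hP => ?_
          obtain ⟨a, b⟩ := h1 P hP
          have := card_perm_map P.1 P.2 (by rw [a, b])
          rwa [a] at this
      _ = 𝓕.card * m.factorial := by rw [Finset.sum_const, smul_eq_mul]
  rw [mul_comm] at h4
  exact Nat.le_of_mul_le_mul_right h4 (Nat.factorial_pos m)

theorem le_choose : ∀ (m s : ℕ), 0 < s → s < m → m ≤ m.choose s
  | 0, s, _, h => absurd h (by omega)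
  | (m + 1), 0, h, _ => absurd h (by omega)
  | (m + 1), (s + 1), _, h => by
    rw [Nat.choose_succ_succ]
    rcases Nat.eq_zero_or_pos s with h0 | h0
    · subst h0
      simp
    · rcases Nat.lt_or_ge (s + 1) m with h1 | h1
      · have a := le_choose m s h0 (by omega)
        have b := le_choose m (s + 1) (by omega) h1
        simp only [Nat.succ_eq_add_one]
        omega
      · have h2 : m = s + 1 := by omega
        subst h2
        rw [Nat.choose_self, Nat.choose_succ_self_right]

/-- proper nonempty pairs: at least `m` of them are needed to cover all permutations. -/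
theorem le_card_of_cover {m k : ℕ} (S T : Fin k → Finset (Fin m))
    (D : Finset (Fin k))
    (h1 : ∀ b ∈ D, (S b).card = (T b).card ∧ 0 < (S b).card ∧ (S b).card < m)
    (h2 : ∀ π : Equiv.Perm (Fin m), ∃ b ∈ D, (S b).map π.toEmbedding = T b) :
    m ≤ k := by
  classical
  have h3 : (univ : Finset (Equiv.Perm (Fin m))).card ≤
      ∑ b ∈ D, (univ.filter fun π : Equiv.Perm (Fin m) =>
        (S b).map π.toEmbedding = T b).card := by
    refine le_trans (Finset.card_le_card ?_) Finset.card_biUnion_le
    intro π _
    rw [mem_biUnion]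
    obtain ⟨P, hP, hπ⟩ := h2 π
    exact ⟨P, hP, by rw [mem_filter]; exact ⟨mem_univ _, hπ⟩⟩
  rw [Finset.card_univ, Fintype.card_perm, Fintype.card_fin] at h3
  have h4 : m.factorial * m ≤ k * m.factorial := by
    calc m.factorial * m ≤ (∑ b ∈ D, (univ.filter
          fun π : Equiv.Perm (Fin m) => (S b).map π.toEmbedding = T b).card) * m :=
          Nat.mul_le_mul_right _ h3
      _ ≤ ∑ b ∈ D, m.factorial := by
          rw [Finset.sum_mul]
          refine Finset.sum_le_sum fun b hb => ?_
          obtain ⟨a, c, d⟩ := h1 b hb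
          rw [← card_perm_map (S b) (T b) a]
          exact Nat.mul_le_mul_left _ (le_choose _ _ c d)
      _ = D.card * m.factorial := by rw [Finset.sum_const, smul_eq_mul]
      _ ≤ k * m.factorial := by
          refine Nat.mul_le_mul_right _ ?_
          have := Finset.card_le_univ D
          rwa [Fintype.card_fin] at this
  rw [mul_comm] at h4
  exact Nat.le_of_mul_le_mul_right h4 (Nat.factorial_pos m)

/-- a nonempty proper subset is moved to a different place by some permutation -/
theorem exists_perm_map_ne {m : ℕ} (S T : Finset (Fin m)) (h0 : S.Nonempty) (h1 : S ≠ univ) :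
    ∃ π : Equiv.Perm (Fin m), S.map π.toEmbedding ≠ T := by
  classical
  by_contra hcon
  push Not at hcon
  obtain ⟨a, ha⟩ := h0
  have : ∃ b, b ∉ S := by
    by_contra h
    push Not at h
    exact h1 (Finset.eq_univ_iff_forall.mpr h)
  obtain ⟨b, hb⟩ := this
  have e1 := hcon 1
  have e2 := hcon (Equiv.swap a b)
  have h3 : b ∈ S.map (Equiv.swap a b).toEmbedding := by
    rw [Finset.mem_map]
    exact ⟨a, ha, by simp⟩
  rw [e2, ← e1] at h3
  rw [Finset.mem_map] at h3
  obtain ⟨c, hc, hc2⟩ := h3
  simp at hc2
  exact hb (hc2 ▸ hc)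

end Pool.Agent.H735R2.OneSym
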