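import Mathlib

/-!
Graded elimination over power series: a class `Cls` of power series attached to two
weights, stable under the Schur complement, and the elimination lemma.
-/

namespace Pool.Agent.H735R2.OneSym

open Finset

variable {σ F Γ : Type*} [Field F] [AddCommGroup Γ] [DecidableEq Γ]

/-- `p` only has (inside the exponent set `K`) monomials of weight `v - u`, and every such
monomial can be cut at every intermediate degree at a weight belonging to `W`. -/
def Cls (K : Set (σ →₀ ℕ)) (ω : (σ →₀ ℕ) →+ Γ) (W : Finset Γ) (u v : Γ)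
    (p : MvPowerSeries σ F) : Prop :=
  ∀ d ∈ K, MvPowerSeries.coeff d p ≠ 0 →
    u + ω d = v ∧ ∀ t : ℕ, 0 < t → t < d.degree → ∃ d' ≤ d, d'.degree = t ∧ u + ω d' ∈ W

variable {K : Set (σ →₀ ℕ)} {ω : (σ →₀ ℕ) →+ Γ} {W W' : Finset Γ} {u v w : Γ}
  {p q : MvPowerSeries σ F}

omit [DecidableEq Γ] in
theorem Cls.mono (h : Cls K ω W u v p) (hW : W ⊆ W') : Cls K ω W' u v p := by
  intro d hd hc
  obtain ⟨h1, h2⟩ := h d hd hc
  refine ⟨h1, fun t ht1 ht2 => ?_⟩
  obtain ⟨d', h3, h4, h5⟩ := h2 t ht1 ht2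
  exact ⟨d', h3, h4, hW h5⟩

omit [DecidableEq Γ] in
theorem Cls.sub (hp : Cls K ω W u v p) (hq : Cls K ω W u v q) : Cls K ω W u v (p - q) := by
  intro d hd hc
  rw [map_sub] at hc
  by_cases h : MvPowerSeries.coeff d p = 0
  · have : MvPowerSeries.coeff d q ≠ 0 := by
      intro h'
      apply hc
      rw [h, h', sub_zero]
    exact hq d hd this
  · exact hp d hd h

omit [DecidableEq Γ] in
/-- key combination step -/
theorem combine {d1 d2 : σ →₀ ℕ} (hv : v ∈ W)
    (h1 : u + ω d1 = v ∧ ∀ t : ℕ, 0 < t → t < d1.degree →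
      ∃ d' ≤ d1, d'.degree = t ∧ u + ω d' ∈ W)
    (h2 : v + ω d2 = w ∧ ∀ t : ℕ, 0 < t → t < d2.degree →
      ∃ d' ≤ d2, d'.degree = t ∧ v + ω d' ∈ W) :
    u + ω (d1 + d2) = w ∧ ∀ t : ℕ, 0 < t → t < (d1 + d2).degree →
      ∃ d' ≤ d1 + d2, d'.degree = t ∧ u + ω d' ∈ W := by
  obtain ⟨a1, a2⟩ := h1
  obtain ⟨b1, b2⟩ := h2
  refine ⟨by rw [map_add, ← add_assoc, a1, b1], fun t ht1 ht2 => ?_⟩
  rw [map_add] at ht2
  rcases lt_trichotomy t d1.degree with h | h | h
  · obtain ⟨d', h3, h4, h5⟩ := a2 t ht1 h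
    exact ⟨d', le_trans h3 le_self_add, h4, h5⟩
  · exact ⟨d1, le_self_add, h.symm, by rw [a1]; exact hv⟩
  · obtain ⟨d', h3, h4, h5⟩ := b2 (t - d1.degree) (by omega) (by omega)
    refine ⟨d1 + d', by gcongr, by rw [map_add, h4]; omega, ?_⟩
    rw [map_add, ← add_assoc, a1]
    exact h5

omit [DecidableEq Γ] in
theorem Cls.mul (hK : ∀ d ∈ K, ∀ d' ≤ d, d' ∈ K) (hp : Cls K ω W u v p)
    (hq : Cls K ω W v w q) (hv : v ∈ W) : Cls K ω W u w (p * q) := by
  classical
  intro d hd hc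
  rw [MvPowerSeries.coeff_mul] at hc
  obtain ⟨⟨d1, d2⟩, hmem, hne⟩ := Finset.exists_ne_zero_of_sum_ne_zero hc
  rw [Finset.HasAntidiagonal.mem_antidiagonal] at hmem
  simp only at hmem hne
  subst hmem
  exact combine hv (hp d1 (hK _ hd _ le_self_add) (left_ne_zero_of_mul hne))
    (hq d2 (hK _ hd _ le_add_self) (right_ne_zero_of_mul hne))

omit [DecidableEq Γ] in
theorem Cls.inv (hK : ∀ d ∈ K, ∀ d' ≤ d, d' ∈ K) (hp : Cls K ω W v v p) (hv : v ∈ W) :
    Cls K ω W v v p⁻¹ := by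
  classical
  intro d
  induction d using WellFoundedLT.induction with
  | ind d ih =>
    intro hd hc
    rw [MvPowerSeries.coeff_inv] at hc
    split_ifs at hc with h0
    · subst h0
      refine ⟨by simp, fun t ht1 ht2 => ?_⟩
      simp at ht2
    · have h1 := right_ne_zero_of_mul hc
      obtain ⟨⟨d1, d2⟩, hmem, hne⟩ := Finset.exists_ne_zero_of_sum_ne_zero h1
      rw [Finset.HasAntidiagonal.mem_antidiagonal] at hmem
      simp only at hmem hne
      split_ifs at hne with hlt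
      · subst hmem
        exact combine hv (hp d1 (hK _ hd _ le_self_add) (left_ne_zero_of_mul hne))
          (ih d2 hlt (hK _ hd _ le_add_self) (right_ne_zero_of_mul hne))
      · exact absurd rfl hne

/-- Schur complement with pivot in position `(0,0)`. -/
theorem det_schur {R : Type*} [CommRing R] {N : ℕ} (A : Matrix (Fin (N + 1)) (Fin (N + 1)) R)
    (q : R) (hq : q * A 0 0 = 1) :
    A.det = A 0 0 * (Matrix.of fun i j : Fin N =>
      A i.succ j.succ - A i.succ 0 * q * A 0 j.succ).det := by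
  let B : Matrix (Fin (N + 1)) (Fin (N + 1)) R := fun i j =>
    if i = 0 then A 0 j else A i j - A i 0 * q * A 0 j
  have h1 : A.det = B.det := by
    refine Matrix.det_eq_of_forall_row_eq_smul_add_const
      (fun i => if i = 0 then 0 else A i 0 * q) 0 (by simp) ?_
    intro i j
    by_cases hi : i = 0
    · subst hi
      simp [B]
    · simp [B, hi]
  rw [h1, Matrix.det_succ_column_zero, Finset.sum_eq_single 0]
  · simp only [Fin.val_zero, pow_zero, one_mul]
    congr 1
  · intro i _ hi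
    have : B i 0 = 0 := by
      simp only [B, hi, if_false]
      rw [mul_assoc, hq, mul_one, sub_self]
    rw [this]
    simp
  · intro h
    exact absurd (Finset.mem_univ _) h

/-- The elimination lemma. -/
theorem elim (hK : ∀ d ∈ K, ∀ d' ≤ d, d' ∈ K) (h0K : (0 : σ →₀ ℕ) ∈ K) :
    ∀ (N : ℕ) (A : Matrix (Fin N) (Fin N) (MvPowerSeries σ F)) (r c : Fin N → Γ)
      (W : Finset Γ), (∀ a b, Cls K ω W (r a) (c b) (A a b)) →
      ∃ (k : ℕ) (M : Matrix (Fin k) (Fin k) (MvPowerSeries σ F)) (r' c' : Fin k → Γ)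
        (W' : Finset Γ) (U : MvPowerSeries σ F), W'.card + k ≤ W.card + N ∧
        (∀ a b, Cls K ω W' (r' a) (c' b) (M a b)) ∧
        (∀ a b, MvPowerSeries.constantCoeff (M a b) = 0) ∧
        MvPowerSeries.constantCoeff U ≠ 0 ∧ A.det = U * M.det := by
  intro N
  induction N with
  | zero =>
    intro A r c W hA
    exact ⟨0, A, r, c, W, 1, le_rfl, hA, fun a => a.elim0, by simp, by simp⟩
  | succ N ih =>
    intro A r c W hA
    by_cases hall : ∀ a b, MvPowerSeries.constantCoeff (A a b) = 0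
    · exact ⟨N + 1, A, r, c, W, 1, le_rfl, hA, hall, by simp, by simp⟩
    push Not at hall
    obtain ⟨a0, b0, hab⟩ := hall
    let A1 : Matrix (Fin (N + 1)) (Fin (N + 1)) (MvPowerSeries σ F) :=
      A.submatrix (Equiv.swap 0 a0) (Equiv.swap 0 b0)
    let r1 := r ∘ Equiv.swap 0 a0
    let c1 := c ∘ Equiv.swap 0 b0
    have hA1 : ∀ a b, Cls K ω W (r1 a) (c1 b) (A1 a b) := fun a b => hA _ _
    have hp : MvPowerSeries.constantCoeff (A1 0 0) ≠ 0 := by
      simpa [A1] using hab
    have hw : r1 0 = c1 0 := by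
      have h2 := (hA1 0 0 0 h0K (by
        rw [MvPowerSeries.coeff_zero_eq_constantCoeff_apply]; exact hp)).1
      simpa using h2
    let W1 := insert (r1 0) W
    have hmem : r1 0 ∈ W1 := Finset.mem_insert_self _ _
    have hsub : W ⊆ W1 := Finset.subset_insert _ _
    have hpinv : Cls K ω W1 (r1 0) (r1 0) (A1 0 0)⁻¹ := by
      apply Cls.inv hK _ hmem
      have := (hA1 0 0).mono hsub
      rwa [← hw] at this
    let A2 : Matrix (Fin N) (Fin N) (MvPowerSeries σ F) := Matrix.of fun i j =>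
      A1 i.succ j.succ - A1 i.succ 0 * (A1 0 0)⁻¹ * A1 0 j.succ
    have hA2 : ∀ a b, Cls K ω W1 (r1 a.succ) (c1 b.succ) (A2 a b) := by
      intro a b
      refine Cls.sub ((hA1 _ _).mono hsub) ?_
      refine Cls.mul hK (v := r1 0) (Cls.mul hK (v := r1 0) ?_ hpinv hmem) ?_ hmem
      · have := (hA1 a.succ 0).mono hsub
        rwa [← hw] at this
      · exact (hA1 0 b.succ).mono hsub
    obtain ⟨k, M, r', c', W', U, h1, h2, h3, h4, h5⟩ :=
      ih A2 (fun a => r1 a.succ) (fun b => c1 b.succ) W1 hA2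
    have hdet1 : A1.det = A1 0 0 * A2.det :=
      det_schur A1 (A1 0 0)⁻¹ (MvPowerSeries.inv_mul_cancel _ hp)
    have hdetA : ∃ s : ℤˣ, A.det = ((s : ℤ) : MvPowerSeries σ F) * A1.det := by
      have h6 : ∀ s : ℤˣ, ((s : ℤ) : MvPowerSeries σ F) * ((s : ℤ) : MvPowerSeries σ F) = 1 := by
        intro s
        rcases Int.units_eq_one_or s with h | h <;> simp [h]
      have e1 : A1 = (A.submatrix (Equiv.swap 0 a0) id).submatrix id (Equiv.swap 0 b0) := rfl
      have e2 : A1.det = ((Equiv.Perm.sign (Equiv.swap 0 b0) : ℤ) : MvPowerSeries σ F) *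
          (((Equiv.Perm.sign (Equiv.swap 0 a0) : ℤ) : MvPowerSeries σ F) * A.det) := by
        rw [e1, Matrix.det_permute', Matrix.det_permute]
      have h7 := h6 (Equiv.Perm.sign (Equiv.swap 0 a0))
      have h8 := h6 (Equiv.Perm.sign (Equiv.swap 0 b0))
      refine ⟨(Equiv.Perm.sign (Equiv.swap 0 a0)) * (Equiv.Perm.sign (Equiv.swap 0 b0)), ?_⟩
      rw [e2]
      push_cast
      linear_combination (-A.det * ((Equiv.Perm.sign (Equiv.swap 0 b0) : ℤ) : MvPowerSeries σ F) *
        ((Equiv.Perm.sign (Equiv.swap 0 b0) : ℤ) : MvPowerSeries σ F)) * h7 - A.det * h8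
    obtain ⟨s, hs⟩ := hdetA
    have hs0 : ((s : ℤ) : F) ≠ 0 := by
      rcases Int.units_eq_one_or s with h | h <;> simp [h]
    refine ⟨k, M, r', c', W', ((s : ℤ) : MvPowerSeries σ F) * (A1 0 0) * U, ?_, h2, h3, ?_, ?_⟩
    · have := Finset.card_insert_le (r1 0) W
      have h7 : W1.card ≤ W.card + 1 := this
      omega
    · rw [map_mul, map_mul]
      refine mul_ne_zero (mul_ne_zero ?_ hp) h4
      rw [map_intCast]
      exact hs0
    · rw [hs, hdet1, h5]
      ring

end Pool.Agent.H735R2.OneSym
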