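import Mathlib
import Pool.Agent.H735R2.OneSym.Elim
import Pool.Agent.H735R2.OneSym.Count

/-!
Permutation monomials and their divisors.
-/

namespace Pool.Agent.H735R2.OneSym

open Finset

/-- exponent of the monomial `∏ i, x (i, π i)` -/
noncomputable def permMon {m : ℕ} (π : Equiv.Perm (Fin m)) : (Fin m × Fin m) →₀ ℕ :=
  ∑ i, Finsupp.single (i, π i) 1

/-- divisors of permutation monomials -/
def KK (m : ℕ) : Set ((Fin m × Fin m) →₀ ℕ) := {d | ∃ π : Equiv.Perm (Fin m), d ≤ permMon π}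

/-- the weight of a monomial, `x (i,j)` having weight `ε i + φ j` -/
noncomputable def wt {m : ℕ} {Γ : Type*} [AddCommGroup Γ] (ε φ : Fin m → Γ) :
    ((Fin m × Fin m) →₀ ℕ) →+ Γ :=
  Finsupp.liftAddHom (fun v => multiplesHom Γ (ε v.1 + φ v.2))

/-- the weights of the row/column index sets separate all pairs of sets of equal size, except
possibly `(∅,∅)` from `(univ,univ)` -/
def Sep {m : ℕ} {Γ : Type*} [AddCommGroup Γ] (ε φ : Fin m → Γ) : Prop :=
  ∀ S T S' T' : Finset (Fin m), S.card = T.card → S'.card = T'.card →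
    (∑ i ∈ S, ε i) + ∑ j ∈ T, φ j = (∑ i ∈ S', ε i) + ∑ j ∈ T', φ j →
    (S = S' ∧ T = T') ∨ (S = ∅ ∧ S' = univ) ∨ (S = univ ∧ S' = ∅)

variable {m : ℕ} {Γ : Type*} [AddCommGroup Γ] {ε φ : Fin m → Γ}

theorem permMon_apply (π : Equiv.Perm (Fin m)) (i j : Fin m) :
    permMon π (i, j) = if π i = j then 1 else 0 := by
  classical
  unfold permMon
  rw [Finsupp.finsetSum_apply, Finset.sum_eq_single i]
  · rw [Finsupp.single_apply]
    simp
  · intro b _ hb
    rw [Finsupp.single_apply, if_neg]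
    intro h
    exact hb (Prod.ext_iff.mp h).1
  · intro h
    exact absurd (mem_univ _) h

theorem KK_down : ∀ d ∈ KK m, ∀ d' ≤ d, d' ∈ KK m := by
  rintro d ⟨π, hπ⟩ d' hd'
  exact ⟨π, hd'.trans hπ⟩

theorem zero_mem_KK : (0 : (Fin m × Fin m) →₀ ℕ) ∈ KK m := ⟨1, zero_le⟩

theorem permMon_mem_KK (π : Equiv.Perm (Fin m)) : permMon π ∈ KK m := ⟨π, le_rfl⟩

/-- the rows occurring in a divisor of a permutation monomial -/
def rowsOf (π : Equiv.Perm (Fin m)) (d : (Fin m × Fin m) →₀ ℕ) : Finset (Fin m) :=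
  univ.filter fun i => d (i, π i) ≠ 0

theorem eq_sum_of_le {π : Equiv.Perm (Fin m)} {d : (Fin m × Fin m) →₀ ℕ}
    (h : d ≤ permMon π) : d = ∑ i ∈ rowsOf π d, Finsupp.single (i, π i) 1 := by
  classical
  ext ⟨i, j⟩
  rw [Finsupp.finsetSum_apply]
  have h1 := h (i, j)
  rw [permMon_apply] at h1
  by_cases hj : π i = j
  · subst hj
    rw [if_pos rfl] at h1
    by_cases h0 : d (i, π i) = 0
    · rw [h0, Finset.sum_eq_zero]
      intro a ha
      rw [Finsupp.single_apply, if_neg]
      intro hh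
      have : a = i := (Prod.ext_iff.mp hh).1
      subst this
      rw [rowsOf, mem_filter] at ha
      exact ha.2 h0
    · rw [Finset.sum_eq_single i]
      · rw [Finsupp.single_apply, if_pos rfl]
        omega
      · intro b _ hb
        rw [Finsupp.single_apply, if_neg]
        intro hh
        exact hb (Prod.ext_iff.mp hh).1
      · intro hh
        exact absurd (by rw [rowsOf, mem_filter]; exact ⟨mem_univ _, h0⟩) hh
  · rw [if_neg hj] at h1
    rw [Finset.sum_eq_zero, Nat.le_zero.mp h1]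
    intro a _
    rw [Finsupp.single_apply, if_neg]
    intro hh
    obtain ⟨e1, e2⟩ := Prod.ext_iff.mp hh
    simp only at e1 e2
    subst e1
    exact hj e2

theorem degree_of_le {π : Equiv.Perm (Fin m)} {d : (Fin m × Fin m) →₀ ℕ}
    (h : d ≤ permMon π) : d.degree = (rowsOf π d).card := by
  conv_lhs => rw [eq_sum_of_le h]
  rw [map_sum]
  simp

theorem wt_single (v : Fin m × Fin m) : wt ε φ (Finsupp.single v 1) = ε v.1 + φ v.2 := by
  simp [wt]

theorem wt_of_le {π : Equiv.Perm (Fin m)} {d : (Fin m × Fin m) →₀ ℕ}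
    (h : d ≤ permMon π) : wt ε φ d =
      (∑ i ∈ rowsOf π d, ε i) + ∑ j ∈ (rowsOf π d).map π.toEmbedding, φ j := by
  conv_lhs => rw [eq_sum_of_le h]
  rw [map_sum, Finset.sum_map]
  simp only [wt_single, Finset.sum_add_distrib, Equiv.coe_toEmbedding]

theorem rowsOf_permMon (π : Equiv.Perm (Fin m)) : rowsOf π (permMon π) = univ := by
  ext i
  simp [rowsOf, permMon_apply]

theorem degree_permMon (π : Equiv.Perm (Fin m)) : (permMon π).degree = m := by
  rw [degree_of_le le_rfl, rowsOf_permMon, card_univ, Fintype.card_fin]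

theorem eq_permMon_of_rowsOf {π : Equiv.Perm (Fin m)} {d : (Fin m × Fin m) →₀ ℕ}
    (h : d ≤ permMon π) (h2 : rowsOf π d = univ) : d = permMon π := by
  rw [eq_sum_of_le h, h2]
  rfl

theorem eq_permMon_of_degree {π : Equiv.Perm (Fin m)} {d : (Fin m × Fin m) →₀ ℕ}
    (h : d ≤ permMon π) (h2 : m ≤ d.degree) : d = permMon π := by
  apply eq_permMon_of_rowsOf h
  rw [degree_of_le h] at h2
  apply Finset.eq_univ_of_card
  rw [Fintype.card_fin]
  refine le_antisymm ?_ h2
  have := Finset.card_le_univ (rowsOf π d)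
  rwa [Fintype.card_fin] at this

theorem rowsOf_nonempty {π : Equiv.Perm (Fin m)} {d : (Fin m × Fin m) →₀ ℕ}
    (h : d ≤ permMon π) (h0 : d ≠ 0) : (rowsOf π d).Nonempty := by
  rw [Finset.nonempty_iff_ne_empty]
  intro he
  apply h0
  rw [eq_sum_of_le h, he]
  simp

theorem permMon_injective : Function.Injective (permMon (m := m)) := by
  intro π π' h
  ext i
  have h1 := DFunLike.congr_fun h (i, π i)
  rw [permMon_apply, permMon_apply, if_pos rfl] at h1
  by_contra hne
  rw [if_neg] at h1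
  · omega
  · intro hh
    exact hne (by rw [hh])

/-- a divisor of degree one is a variable -/
theorem eq_single_of_degree_one {π : Equiv.Perm (Fin m)} {d : (Fin m × Fin m) →₀ ℕ}
    (h : d ≤ permMon π) (h1 : d.degree = 1) :
    ∃ i, d = Finsupp.single (i, π i) 1 := by
  rw [degree_of_le h] at h1
  obtain ⟨i, hi⟩ := Finset.card_eq_one.mp h1
  refine ⟨i, ?_⟩
  rw [eq_sum_of_le h, hi]
  simp

theorem single_mem_KK (v : Fin m × Fin m) : Finsupp.single v 1 ∈ KK m := by
  refine ⟨Equiv.swap v.1 v.2, ?_⟩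
  intro w
  rw [Finsupp.single_apply]
  split_ifs with h
  · subst h
    obtain ⟨i, j⟩ := v
    rw [permMon_apply]
    simp
  · exact Nat.zero_le _

theorem Sep.single (hsep : Sep ε φ) {v v' : Fin m × Fin m}
    (h : ε v.1 + φ v.2 = ε v'.1 + φ v'.2) : v = v' := by
  have h1 := hsep {v.1} {v.2} {v'.1} {v'.2} (by simp) (by simp) (by simpa using h)
  rcases h1 with ⟨a, b⟩ | ⟨a, _⟩ | ⟨_, b⟩
  · exact Prod.ext (Finset.singleton_injective a) (Finset.singleton_injective b)
  · simp at a
  · simp at b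

end Pool.Agent.H735R2.OneSym
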