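import Mathlib
import Pool.Agent.H735R2.OneSym.Mon

/-!
The core lower bound for graded determinantal representations.
-/

namespace Pool.Agent.H735R2.OneSym

open Finset

variable {m : ℕ} {F Γ : Type*} [Field F] [AddCommGroup Γ] {ε φ : Fin m → Γ}

/-- support of a determinant -/
theorem det_ext {σ : Type*} {k : ℕ} (M : Matrix (Fin k) (Fin k) (MvPowerSeries σ F))
    (hM0 : ∀ a b, MvPowerSeries.constantCoeff (M a b) = 0) (d : σ →₀ ℕ)
    (hd : MvPowerSeries.coeff d M.det ≠ 0) :
    ∃ (s : Equiv.Perm (Fin k)) (l : Fin k → (σ →₀ ℕ)), ∑ b, l b = d ∧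
      ∀ b, l b ≠ 0 ∧ MvPowerSeries.coeff (l b) (M (s b) b) ≠ 0 := by
  classical
  rw [Matrix.det_apply, map_sum] at hd
  obtain ⟨s, _, hs⟩ := Finset.exists_ne_zero_of_sum_ne_zero hd
  have hs2 : MvPowerSeries.coeff d (∏ b, M (s b) b) ≠ 0 := by
    intro h0
    apply hs
    rcases Int.units_eq_one_or (Equiv.Perm.sign s) with h | h
    · rw [h, one_smul, h0]
    · rw [h, Units.neg_smul, one_smul, map_neg, h0, neg_zero]
  rw [MvPowerSeries.coeff_prod] at hs2
  obtain ⟨l, hl, hne⟩ := Finset.exists_ne_zero_of_sum_ne_zero hs2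
  rw [Finset.mem_finsuppAntidiag] at hl
  refine ⟨s, l, hl.1, fun b => ?_⟩
  have h1 : MvPowerSeries.coeff (l b) (M (s b) b) ≠ 0 := by
    intro h
    exact hne (Finset.prod_eq_zero (mem_univ b) h)
  refine ⟨?_, h1⟩
  intro h0
  rw [h0, MvPowerSeries.coeff_zero_eq_constantCoeff_apply, hM0] at h1
  exact h1 rfl

theorem one_le_degree {σ : Type*} {d : σ →₀ ℕ} (h : d ≠ 0) : 1 ≤ d.degree := by
  rw [Nat.one_le_iff_ne_zero]
  intro h1
  exact h ((Finsupp.degree_eq_zero_iff d).mp h1)

theorem le_degree_sum {σ : Type*} {k : ℕ} {l : Fin k → (σ →₀ ℕ)} (h : ∀ b, l b ≠ 0) :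
    k ≤ (∑ b, l b).degree := by
  rw [map_sum]
  calc k = ∑ _b : Fin k, 1 := by simp
    _ ≤ _ := Finset.sum_le_sum fun b _ => one_le_degree (h b)

/-- The six permutations argument: a matrix all of whose signed transversal products are given
by numbers `α` cannot have `α1 α2 α3 + α4 α5 α6 ≠ 0`. -/
theorem six (hm : 3 ≤ m) (γ : Fin m → Fin m → F) (u : F)
    (α : Equiv.Perm (Fin m) → F)
    (h : ∀ s : Equiv.Perm (Fin m), α s = u * (((Equiv.Perm.sign s : ℤ) : F) * ∏ b, γ (s b) b))
    (h6 : ∀ a b c d e f, α a * α b * α c + α d * α e * α f ≠ 0) : False := by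
  classical
  let z0 : Fin m := ⟨0, by omega⟩
  let z1 : Fin m := ⟨1, by omega⟩
  let z2 : Fin m := ⟨2, by omega⟩
  have h01 : z0 ≠ z1 := by simp [z0, z1]
  have h02 : z0 ≠ z2 := by simp [z0, z2]
  have h12 : z1 ≠ z2 := by simp [z1, z2]
  let e1 : Equiv.Perm (Fin m) := 1
  let e2 : Equiv.Perm (Fin m) := Equiv.swap z0 z1 * Equiv.swap z1 z2
  let e3 : Equiv.Perm (Fin m) := Equiv.swap z1 z2 * Equiv.swap z0 z1
  let o1 : Equiv.Perm (Fin m) := Equiv.swap z0 z1
  let o2 : Equiv.Perm (Fin m) := Equiv.swap z1 z2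
  let o3 : Equiv.Perm (Fin m) := Equiv.swap z0 z2
  have key : (∏ b, γ (e1 b) b) * (∏ b, γ (e2 b) b) * (∏ b, γ (e3 b) b) =
      (∏ b, γ (o1 b) b) * (∏ b, γ (o2 b) b) * (∏ b, γ (o3 b) b) := by
    rw [← Finset.prod_mul_distrib, ← Finset.prod_mul_distrib, ← Finset.prod_mul_distrib,
      ← Finset.prod_mul_distrib]
    refine Finset.prod_congr rfl fun b _ => ?_
    by_cases b0 : b = z0
    · subst b0
      simp only [e1, e2, e3, o1, o2, o3, Equiv.Perm.coe_one, id_eq, Equiv.Perm.coe_mul,
        Function.comp_apply, Equiv.swap_apply_left, Equiv.swap_apply_of_ne_of_ne h01 h02]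
      ring
    · by_cases b1 : b = z1
      · subst b1
        simp only [e1, e2, e3, o1, o2, o3, Equiv.Perm.coe_one, id_eq, Equiv.Perm.coe_mul,
          Function.comp_apply, Equiv.swap_apply_left, Equiv.swap_apply_right,
          Equiv.swap_apply_of_ne_of_ne h01 h02, Equiv.swap_apply_of_ne_of_ne h02.symm h12.symm,
          Equiv.swap_apply_of_ne_of_ne h01.symm h12]
        ring
      · by_cases b2 : b = z2
        · subst b2
          simp only [e1, e2, e3, o1, o2, o3, Equiv.Perm.coe_one, id_eq, Equiv.Perm.coe_mul,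
            Function.comp_apply, Equiv.swap_apply_right,
            Equiv.swap_apply_of_ne_of_ne h02.symm h12.symm]
          ring
        · simp only [e1, e2, e3, o1, o2, o3, Equiv.Perm.coe_one, id_eq, Equiv.Perm.coe_mul,
            Function.comp_apply, Equiv.swap_apply_of_ne_of_ne b0 b1,
            Equiv.swap_apply_of_ne_of_ne b1 b2, Equiv.swap_apply_of_ne_of_ne b0 b2]
  apply h6 e1 e2 e3 o1 o2 o3
  rw [h e1, h e2, h e3, h o1, h o2, h o3]
  have s1 : Equiv.Perm.sign e1 = 1 := by simp [e1]
  have s2 : Equiv.Perm.sign e2 = 1 := by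
    simp only [e2, map_mul, Equiv.Perm.sign_swap h01, Equiv.Perm.sign_swap h12]
    simp
  have s3 : Equiv.Perm.sign e3 = 1 := by
    simp only [e3, map_mul, Equiv.Perm.sign_swap h01, Equiv.Perm.sign_swap h12]
    simp
  have s4 : Equiv.Perm.sign o1 = -1 := Equiv.Perm.sign_swap h01
  have s5 : Equiv.Perm.sign o2 = -1 := Equiv.Perm.sign_swap h12
  have s6 : Equiv.Perm.sign o3 = -1 := Equiv.Perm.sign_swap h02
  rw [s1, s2, s3, s4, s5, s6]
  push_cast
  linear_combination u ^ 3 * key

/-- the case `k = m` of the core theorem -/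
theorem case_eq (hm : 3 ≤ m) (hsep : Sep ε φ)
    (M : Matrix (Fin m) (Fin m) (MvPowerSeries (Fin m × Fin m) F)) (r c : Fin m → Γ)
    (hM : ∀ a b, ∀ d ∈ KK m, MvPowerSeries.coeff d (M a b) ≠ 0 → r a + wt ε φ d = c b)
    (hM0 : ∀ a b, MvPowerSeries.constantCoeff (M a b) = 0)
    (U : MvPowerSeries (Fin m × Fin m) F) (α : Equiv.Perm (Fin m) → F)
    (hα : ∀ π, MvPowerSeries.coeff (permMon π) (U * M.det) = α π)
    (h6 : ∀ a b c d e f, α a * α b * α c + α d * α e * α f ≠ 0) : False := by
  classical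
  have hα0 : ∀ π, α π ≠ 0 := by
    intro π h
    exact h6 π π π π π π (by rw [h]; ring)
  -- every divisor of a permutation monomial in the support of the determinant is the monomial
  have hfull : ∀ (π : Equiv.Perm (Fin m)) (d), d ≤ permMon π →
      MvPowerSeries.coeff d M.det ≠ 0 → d = permMon π := by
    intro π d hd hne
    obtain ⟨s, l, h1, h2⟩ := det_ext M hM0 d hne
    apply eq_permMon_of_degree hd
    rw [← h1]
    exact le_degree_sum fun b => (h2 b).1
  have hcoef : ∀ π, α π = MvPowerSeries.constantCoeff U *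
      MvPowerSeries.coeff (permMon π) M.det := by
    intro π
    rw [← hα π, MvPowerSeries.coeff_mul, Finset.sum_eq_single (0, permMon π)]
    · simp
    · rintro ⟨d1, d2⟩ hmem hne
      rw [Finset.HasAntidiagonal.mem_antidiagonal] at hmem
      simp only at hmem ⊢
      by_contra hcon
      have h2 : d2 ≤ permMon π := by
        rw [← hmem]
        exact le_add_self
      have h3 := hfull π d2 h2 (right_ne_zero_of_mul hcon)
      apply hne
      rw [h3] at hmem
      have : d1 = 0 := by
        have h4 := hmem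
        rwa [add_eq_right] at h4
      rw [this, h3]
    · intro h
      exact absurd (by rw [Finset.HasAntidiagonal.mem_antidiagonal]; simp) h
  -- the linear coefficients
  let γ : Fin m → Fin m → F := fun a b =>
    ∑ v : Fin m × Fin m, MvPowerSeries.coeff (Finsupp.single v 1) (M a b)
  have huniq : ∀ a b (v v' : Fin m × Fin m),
      MvPowerSeries.coeff (Finsupp.single v 1) (M a b) ≠ 0 →
      MvPowerSeries.coeff (Finsupp.single v' 1) (M a b) ≠ 0 → v = v' := by
    intro a b v v' h h'
    apply hsep.single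
    have e1 := hM a b _ (single_mem_KK v) h
    have e2 := hM a b _ (single_mem_KK v') h'
    rw [wt_single] at e1 e2
    exact add_left_cancel (e1.trans e2.symm)
  have hγ : ∀ a b v, MvPowerSeries.coeff (Finsupp.single v 1) (M a b) ≠ 0 →
      γ a b = MvPowerSeries.coeff (Finsupp.single v 1) (M a b) := by
    intro a b v h
    simp only [γ]
    rw [Finset.sum_eq_single v]
    · intro v' _ hv'
      by_contra hh
      exact hv' (huniq a b v' v hh h)
    · intro hh
      exact absurd (mem_univ _) hh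
  -- terms
  let E : Equiv.Perm (Fin m) → Equiv.Perm (Fin m) → Prop := fun s π =>
    MvPowerSeries.coeff (permMon π) (∏ b, M (s b) b) ≠ 0
  have hterm : ∀ (s π : Equiv.Perm (Fin m)) (l : Fin m →₀ ((Fin m × Fin m) →₀ ℕ)),
      l ∈ Finset.finsuppAntidiag univ (permMon π) →
      (∏ b, MvPowerSeries.coeff (l b) (M (s b) b)) ≠ 0 →
      ∀ b, ∃ v, l b = Finsupp.single v 1 ∧
        MvPowerSeries.coeff (Finsupp.single v 1) (M (s b) b) ≠ 0 := by
    intro s π l hl hne b
    rw [Finset.mem_finsuppAntidiag] at hl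
    have h1 : ∀ b, MvPowerSeries.coeff (l b) (M (s b) b) ≠ 0 := by
      intro b h
      exact hne (Finset.prod_eq_zero (mem_univ b) h)
    have h2 : ∀ b, l b ≠ 0 := by
      intro b h0
      have := h1 b
      rw [h0, MvPowerSeries.coeff_zero_eq_constantCoeff_apply, hM0] at this
      exact this rfl
    have h3 : ∑ b, (l b).degree = m := by
      rw [← map_sum, hl.1, degree_permMon]
    have h4 : (l b).degree = 1 := by
      by_contra hcon
      have h5 : 1 < (l b).degree := lt_of_le_of_ne (one_le_degree (h2 b)) (Ne.symm hcon)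
      have h6 : ∑ _b : Fin m, 1 < ∑ b, (l b).degree :=
        Finset.sum_lt_sum (fun b _ => one_le_degree (h2 b)) ⟨b, mem_univ _, h5⟩
      simp only [sum_const, card_univ, Fintype.card_fin, smul_eq_mul, mul_one] at h6
      omega
    have h5 : l b ≤ permMon π := by
      rw [← hl.1]
      exact Finset.single_le_sum (f := fun b => l b) (fun _ _ => zero_le) (mem_univ b)
    obtain ⟨i, hi⟩ := eq_single_of_degree_one h5 h4
    refine ⟨(i, π i), hi, ?_⟩
    rw [← hi]
    exact h1 b
  -- uniqueness of l for given s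
  have huniql : ∀ (s π π' : Equiv.Perm (Fin m)) (l l' : Fin m →₀ ((Fin m × Fin m) →₀ ℕ)),
      l ∈ Finset.finsuppAntidiag univ (permMon π) →
      (∏ b, MvPowerSeries.coeff (l b) (M (s b) b)) ≠ 0 →
      l' ∈ Finset.finsuppAntidiag univ (permMon π') →
      (∏ b, MvPowerSeries.coeff (l' b) (M (s b) b)) ≠ 0 → l = l' := by
    intro s π π' l l' hl hne hl' hne'
    ext1 b
    obtain ⟨v, hv1, hv2⟩ := hterm s π l hl hne b
    obtain ⟨v', hv1', hv2'⟩ := hterm s π' l' hl' hne' b
    rw [hv1, hv1', huniq _ _ v v' hv2 hv2']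
  have hEl : ∀ s π, E s π → ∃ l ∈ Finset.finsuppAntidiag univ (permMon π),
      (∏ b, MvPowerSeries.coeff (l b) (M (s b) b)) ≠ 0 := by
    intro s π h
    simp only [E] at h
    rw [MvPowerSeries.coeff_prod] at h
    exact Finset.exists_ne_zero_of_sum_ne_zero h
  have hE2 : ∀ s π π', E s π → E s π' → π = π' := by
    intro s π π' h h'
    obtain ⟨l, hl, hne⟩ := hEl s π h
    obtain ⟨l', hl', hne'⟩ := hEl s π' h'
    have := huniql s π π' l l' hl hne hl' hne'
    subst this
    rw [Finset.mem_finsuppAntidiag] at hl hl'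
    exact permMon_injective (hl.1.symm.trans hl'.1)
  have hE3 : ∀ s π, E s π → MvPowerSeries.coeff (permMon π) (∏ b, M (s b) b) =
      ∏ b, γ (s b) b := by
    intro s π h
    obtain ⟨l, hl, hne⟩ := hEl s π h
    rw [MvPowerSeries.coeff_prod, Finset.sum_eq_single l]
    · refine Finset.prod_congr rfl fun b _ => ?_
      obtain ⟨v, hv1, hv2⟩ := hterm s π l hl hne b
      rw [hv1, hγ _ _ v hv2]
    · intro l' hl' hne'
      by_contra hcon
      exact hne' (huniql s π π l' l hl' hcon hl hne)
    · intro hh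
      exact absurd hl hh
  have hE1 : ∀ π, ∃ s, E s π := by
    intro π
    have h1 : MvPowerSeries.coeff (permMon π) M.det ≠ 0 := by
      intro h
      apply hα0 π
      rw [hcoef π, h, mul_zero]
    rw [Matrix.det_apply, map_sum] at h1
    obtain ⟨s, _, hs⟩ := Finset.exists_ne_zero_of_sum_ne_zero h1
    refine ⟨s, ?_⟩
    intro h0
    apply hs
    rcases Int.units_eq_one_or (Equiv.Perm.sign s) with h | h
    · rw [h, one_smul, h0]
    · rw [h, Units.neg_smul, one_smul, map_neg, h0, neg_zero]
  choose f hf using hE1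
  have hinj : Function.Injective f := by
    intro π π' h
    exact hE2 (f π) π π' (hf π) (by rw [h]; exact hf π')
  have hsurj : Function.Surjective f := Finite.surjective_of_injective hinj
  have hE4 : ∀ s π, E s π → s = f π := by
    intro s π h
    obtain ⟨π', rfl⟩ := hsurj s
    rw [hE2 _ _ _ h (hf π')]
  have hdet : ∀ π, MvPowerSeries.coeff (permMon π) M.det =
      ((Equiv.Perm.sign (f π) : ℤ) : F) * ∏ b, γ (f π b) b := by
    intro π
    rw [Matrix.det_apply, map_sum, Finset.sum_eq_single (f π)]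
    · rw [← hE3 _ _ (hf π)]
      rcases Int.units_eq_one_or (Equiv.Perm.sign (f π)) with h | h
      · rw [h, one_smul]
        simp
      · rw [h, Units.neg_smul, one_smul, map_neg]
        simp
    · intro s _ hs
      have h0 : MvPowerSeries.coeff (permMon π) (∏ b, M (s b) b) = 0 := by
        by_contra hcon
        exact hs (hE4 s π hcon)
      rcases Int.units_eq_one_or (Equiv.Perm.sign s) with h | h
      · rw [h, one_smul, h0]
      · rw [h, Units.neg_smul, one_smul, map_neg, h0, neg_zero]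
    · intro h
      exact absurd (mem_univ _) h
  choose g hg using hsurj
  refine six hm γ (MvPowerSeries.constantCoeff U) (fun s => α (g s)) ?_ ?_
  · intro s
    rw [hcoef, hdet, hg]
  · intro a b c d e f
    exact h6 _ _ _ _ _ _

end Pool.Agent.H735R2.OneSym
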