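import Mathlib
import Pool.Agent.H735R2.OneSym.Core

/-!
The graded lower bound `2 ^ m - 1 ≤ N`.
-/

namespace Pool.Agent.H735R2.OneSym

open Finset

variable {m : ℕ} {F Γ : Type*} [Field F] [AddCommGroup Γ] {ε φ : Fin m → Γ}

/-- weights of two nonempty proper pairs of sets are different -/
theorem Sep.proper (hsep : Sep ε φ) {S T S' T' : Finset (Fin m)} (h1 : S.card = T.card)
    (h2 : S'.card = T'.card) (hS : S.Nonempty) (hS' : S'.Nonempty)
    (h : (∑ i ∈ S, ε i) + ∑ j ∈ T, φ j = (∑ i ∈ S', ε i) + ∑ j ∈ T', φ j) :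
    S = S' ∧ T = T' := by
  rcases hsep S T S' T' h1 h2 h with h3 | ⟨h3, _⟩ | ⟨_, h3⟩
  · exact h3
  · exact absurd h3 hS.ne_empty
  · exact absurd h3 hS'.ne_empty

theorem sum_choose_Ioo (hm : 1 ≤ m) : ∑ t ∈ Finset.Ioo 0 m, m.choose t + 2 = 2 ^ m := by
  have h1 := Nat.sum_range_choose m
  rw [Finset.range_eq_Ico, Finset.sum_Ico_succ_top (Nat.zero_le m), Nat.choose_self,
    Finset.sum_eq_sum_Ico_succ_bot (by omega), Nat.choose_zero_right] at h1
  have h2 : Finset.Ioo 0 m = Finset.Ico (0 + 1) m := by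
    ext x
    simp only [Finset.mem_Ioo, Finset.mem_Ico]
    omega
  rw [h2, ← h1]
  ring

theorem graded_lower_bound (hm : 3 ≤ m) (hsep : Sep ε φ) {N : ℕ}
    (A : Matrix (Fin N) (Fin N) (MvPowerSeries (Fin m × Fin m) F)) (r c : Fin N → Γ)
    (hA : ∀ a b, Cls (KK m) (wt ε φ) ∅ (r a) (c b) (A a b))
    (h0 : MvPowerSeries.constantCoeff A.det = 0)
    (h6 : ∀ a b c d e f : Equiv.Perm (Fin m),
      MvPowerSeries.coeff (permMon a) A.det * MvPowerSeries.coeff (permMon b) A.det *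
        MvPowerSeries.coeff (permMon c) A.det + MvPowerSeries.coeff (permMon d) A.det *
        MvPowerSeries.coeff (permMon e) A.det * MvPowerSeries.coeff (permMon f) A.det ≠ 0) :
    2 ^ m ≤ N + 1 := by
  classical
  obtain ⟨k, M, r', c', W, U, hcard, hM, hM0, hU, hdet⟩ :=
    elim (F := F) (Γ := Γ) (ω := wt ε φ) KK_down zero_mem_KK N A r c ∅ hA
  rw [Finset.card_empty, zero_add] at hcard
  have hα0 : ∀ π : Equiv.Perm (Fin m), MvPowerSeries.coeff (permMon π) A.det ≠ 0 := by
    intro π h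
    exact h6 π π π π π π (by rw [h]; ring)
  -- extraction
  have hext : ∀ π : Equiv.Perm (Fin m), ∃ (s : Equiv.Perm (Fin k))
      (l : Fin k → ((Fin m × Fin m) →₀ ℕ)), ∑ b, l b ≤ permMon π ∧
      ∀ b, l b ≠ 0 ∧ MvPowerSeries.coeff (l b) (M (s b) b) ≠ 0 := by
    intro π
    have h1 := hα0 π
    rw [hdet, MvPowerSeries.coeff_mul] at h1
    obtain ⟨⟨d1, d2⟩, hmem, hne⟩ := Finset.exists_ne_zero_of_sum_ne_zero h1
    rw [Finset.HasAntidiagonal.mem_antidiagonal] at hmem
    simp only at hmem hne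
    obtain ⟨s, l, h2, h3⟩ := det_ext M hM0 d2 (right_ne_zero_of_mul hne)
    refine ⟨s, l, ?_, h3⟩
    rw [h2, ← hmem]
    exact le_add_self
  have hk0 : k ≠ 0 := by
    rintro rfl
    rw [hdet, Matrix.det_isEmpty, mul_one] at h0
    exact hU h0
  rcases Nat.lt_or_ge 1 k with hk | hk
  · -- k ≥ 2
    exfalso
    haveI : NeZero k := ⟨hk0⟩
    let b0 : Fin k := ⟨0, by omega⟩
    let b1 : Fin k := ⟨1, hk⟩
    have hb : b1 ≠ b0 := by simp [b0, b1]
    -- covering
    let P : Fin k → Finset (Fin m) × Finset (Fin m) → Prop := fun a Q =>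
      Q.1.card = Q.2.card ∧ Q.1.Nonempty ∧ Q.1.card < m ∧
        r' a + ((∑ i ∈ Q.1, ε i) + ∑ j ∈ Q.2, φ j) = c' b0
    have hP : ∀ π : Equiv.Perm (Fin m), ∃ a, ∃ Q, P a Q ∧ Q.1.map π.toEmbedding = Q.2 := by
      intro π
      obtain ⟨s, l, h1, h2⟩ := hext π
      have hle : ∀ b, l b ≤ permMon π := fun b =>
        (Finset.single_le_sum (f := fun b => l b) (fun _ _ => zero_le) (mem_univ b)).trans h1
      refine ⟨s b0, (rowsOf π (l b0), (rowsOf π (l b0)).map π.toEmbedding),
        ⟨(card_map _).symm, rowsOf_nonempty (hle b0) (h2 b0).1, ?_, ?_⟩, rfl⟩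
      · obtain ⟨i, hi⟩ := rowsOf_nonempty (hle b1) (h2 b1).1
        have hi2 : i ∉ rowsOf π (l b0) := by
          intro hcon
          rw [rowsOf, mem_filter] at hi hcon
          have h3 : l b0 + l b1 ≤ permMon π := by
            refine le_trans ?_ h1
            have h4 : ∑ b ∈ ({b0, b1} : Finset (Fin k)), l b ≤ ∑ b, l b :=
              Finset.sum_le_sum_of_subset_of_nonneg (subset_univ _) (fun _ _ _ => zero_le)
            rwa [Finset.sum_pair hb.symm] at h4
          have h5 := h3 (i, π i)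
          rw [Finsupp.add_apply, permMon_apply, if_pos rfl] at h5
          omega
        have h6 : (rowsOf π (l b0)).card < (univ : Finset (Fin m)).card :=
          Finset.card_lt_card ⟨subset_univ _, fun h => hi2 (h (mem_univ i))⟩
        rwa [card_univ, Fintype.card_fin] at h6
      · have h3 := (hM (s b0) b0 (l b0) ⟨π, hle b0⟩ (h2 b0).2).1
        rw [wt_of_le (hle b0)] at h3
        exact h3
    have hPu : ∀ a Q Q', P a Q → P a Q' → Q = Q' := by
      rintro a ⟨S, T⟩ ⟨S', T'⟩ ⟨e1, e2, _, e4⟩ ⟨f1, f2, _, f4⟩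
      obtain ⟨g1, g2⟩ := hsep.proper e1 f1 e2 f2 (add_left_cancel (e4.trans f4.symm))
      exact Prod.ext g1 g2
    let D : Finset (Fin k) := univ.filter fun a => ∃ Q, P a Q
    have hQ : ∀ a, ∃ Q, a ∈ D → P a Q := by
      intro a
      by_cases ha : a ∈ D
      · obtain ⟨Q, hQ⟩ := (mem_filter.mp ha).2
        exact ⟨Q, fun _ => hQ⟩
      · exact ⟨(∅, ∅), fun h => absurd h ha⟩
    choose Q hQ using hQ
    have hmk : m ≤ k := by
      refine le_card_of_cover (fun a => (Q a).1) (fun a => (Q a).2) D ?_ ?_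
      · intro a ha
        obtain ⟨e1, e2, e3, _⟩ := hQ a ha
        exact ⟨e1, Finset.card_pos.mpr e2, e3⟩
      · intro π
        obtain ⟨a, Q', h1, h2⟩ := hP π
        have ha : a ∈ D := mem_filter.mpr ⟨mem_univ _, Q', h1⟩
        refine ⟨a, ha, ?_⟩
        rw [hPu a _ _ (hQ a ha) h1]
        exact h2
    have hkm : k ≤ m := by
      obtain ⟨s, l, h1, h2⟩ := hext 1
      have h3 := le_degree_sum fun b => (h2 b).1
      have h4 := Finsupp.degree_mono h1
      rw [degree_permMon] at h4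
      omega
    obtain rfl : k = m := le_antisymm hkm hmk
    refine case_eq hm hsep M r' c' (fun a b d hd hne => (hM a b d hd hne).1) hM0 U
      (fun π => MvPowerSeries.coeff (permMon π) A.det) ?_ h6
    intro π
    rw [hdet]
  · -- k = 1
    obtain rfl : k = 1 := by omega
    have hd : ∀ π : Equiv.Perm (Fin m), ∃ d, d ≤ permMon π ∧ d ≠ 0 ∧
        MvPowerSeries.coeff d (M 0 0) ≠ 0 := by
      intro π
      obtain ⟨s, l, h1, h2⟩ := hext π
      refine ⟨l 0, ?_, (h2 0).1, ?_⟩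
      · simpa using h1
      · have := (h2 0).2
        rwa [Subsingleton.elim (s 0) 0] at this
    choose d hd1 hd2 hd3 using hd
    have hw : ∀ π, r' 0 + wt ε φ (d π) = c' 0 := fun π => (hM 0 0 _ ⟨π, hd1 π⟩ (hd3 π)).1
    have hfull : ∀ π, d π = permMon π := by
      have hS : ∀ π, rowsOf π (d π) = rowsOf 1 (d 1) ∧
          (rowsOf π (d π)).map π.toEmbedding =
            (rowsOf 1 (d 1)).map (1 : Equiv.Perm (Fin m)).toEmbedding := by
        intro π
        have e1 := hw π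
        have e2 := hw 1
        rw [wt_of_le (hd1 _)] at e1 e2
        exact hsep.proper (card_map _).symm (card_map _).symm
          (rowsOf_nonempty (hd1 π) (hd2 π)) (rowsOf_nonempty (hd1 1) (hd2 1))
          (add_left_cancel (e1.trans e2.symm))
      have huniv : rowsOf 1 (d 1) = univ := by
        by_contra hne
        obtain ⟨π, hπ⟩ := exists_perm_map_ne (rowsOf 1 (d 1))
          ((rowsOf 1 (d 1)).map (1 : Equiv.Perm (Fin m)).toEmbedding)
          (rowsOf_nonempty (hd1 1) (hd2 1)) hne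
        apply hπ
        rw [← (hS π).2, (hS π).1]
      intro π
      exact eq_permMon_of_rowsOf (hd1 π) ((hS π).1.trans huniv)
    have hcut : ∀ π : Equiv.Perm (Fin m), ∀ t, 0 < t → t < m → ∃ S : Finset (Fin m),
        S.card = t ∧
          r' 0 + ((∑ i ∈ S, ε i) + ∑ j ∈ S.map π.toEmbedding, φ j) ∈ W := by
      intro π t ht1 ht2
      have h1 := (hM 0 0 (d π) ⟨π, hd1 π⟩ (hd3 π)).2 t ht1
        (by rw [hfull π, degree_permMon]; exact ht2)
      obtain ⟨d', h2, h3, h4⟩ := h1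
      have h5 : d' ≤ permMon π := h2.trans (hd1 π)
      refine ⟨rowsOf π d', by rw [← degree_of_le h5, h3], ?_⟩
      rw [wt_of_le h5] at h4
      exact h4
    let FF : Finset (Finset (Fin m) × Finset (Fin m)) :=
      univ.filter fun Q => Q.1.card = Q.2.card ∧ 0 < Q.1.card ∧ Q.1.card < m ∧
        r' 0 + ((∑ i ∈ Q.1, ε i) + ∑ j ∈ Q.2, φ j) ∈ W
    have hFW : FF.card ≤ W.card := by
      refine Finset.card_le_card_of_injOn
        (fun Q => r' 0 + ((∑ i ∈ Q.1, ε i) + ∑ j ∈ Q.2, φ j)) ?_ ?_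
      · intro Q hQ
        exact (mem_filter.mp hQ).2.2.2.2
      · rintro ⟨S, T⟩ hQ ⟨S', T'⟩ hQ' h
        obtain ⟨_, e1, e2, _, _⟩ := mem_filter.mp hQ
        obtain ⟨_, f1, f2, _, _⟩ := mem_filter.mp hQ'
        obtain ⟨g1, g2⟩ := hsep.proper e1 f1 (Finset.card_pos.mp e2) (Finset.card_pos.mp f2)
          (add_left_cancel h)
        exact Prod.ext g1 g2
    have hFs : FF.card = ∑ t ∈ Finset.Ioo 0 m, (FF.filter fun Q => Q.1.card = t).card := by
      apply Finset.card_eq_sum_card_fiberwise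
      intro Q hQ
      obtain ⟨_, _, e2, e3, _⟩ := mem_filter.mp hQ
      rw [mem_coe, Finset.mem_Ioo]
      exact ⟨e2, e3⟩
    have hge : ∑ t ∈ Finset.Ioo 0 m, m.choose t ≤ FF.card := by
      rw [hFs]
      refine Finset.sum_le_sum fun t ht => ?_
      rw [Finset.mem_Ioo] at ht
      refine choose_le_card _ ?_ ?_
      · intro Q hQ
        obtain ⟨e1, e2⟩ := mem_filter.mp hQ
        obtain ⟨_, e3, _⟩ := mem_filter.mp e1
        exact ⟨e2, by rw [← e3, e2]⟩
      · intro π
        obtain ⟨S, h1, h2⟩ := hcut π t ht.1 ht.2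
        refine ⟨(S, S.map π.toEmbedding), ?_, rfl⟩
        rw [mem_filter, mem_filter]
        refine ⟨⟨mem_univ _, (card_map _).symm, ?_, ?_, h2⟩, h1⟩
        · simp only
          omega
        · simp only
          omega
    have hsum := sum_choose_Ioo (m := m) (by omega)
    omega

end Pool.Agent.H735R2.OneSym
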