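import Mathlib
import Pool.Agent.H735R2.OneSym.Main
import Pool.Agent.H735R2.OneSym.Adapt

/-!
From one diagonal symmetry to a grading.
-/

namespace Pool.Agent.H735R2.OneSym

open Finset Module MvPolynomial

variable {m : ℕ} {F : Type*} [Field F]

/-- the substitution `x (i,j) ↦ s i * t j * x (i,j)` -/
noncomputable def scale (s t : Fin m → Fˣ) :
    MvPolynomial (Fin m × Fin m) F →ₐ[F] MvPolynomial (Fin m × Fin m) F :=
  MvPolynomial.aeval fun v => MvPolynomial.C ((s v.1 : F) * (t v.2 : F)) * MvPolynomial.X v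

/-- genericity of the pair of diagonal matrices `(s, t)`: products over pairs of index sets of
equal size are pairwise different, except that the full product may be equal to `1` -/
def Generic (s t : Fin m → Fˣ) : Prop :=
  ∀ S T S' T' : Finset (Fin m), S.card = T.card → S'.card = T'.card →
    (∏ i ∈ S, s i) * ∏ j ∈ T, t j = (∏ i ∈ S', s i) * ∏ j ∈ T', t j →
    (S = S' ∧ T = T') ∨ (S = ∅ ∧ S' = univ) ∨ (S = univ ∧ S' = ∅)

theorem Generic.sep {s t : Fin m → Fˣ} (h : Generic s t) :
    Sep (fun i => Additive.ofMul (s i)) (fun j => Additive.ofMul (t j)) := by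
  intro S T S' T' h1 h2 h3
  apply h S T S' T' h1 h2
  apply Additive.ofMul.injective
  simp only [ofMul_mul, ofMul_prod]
  exact h3

/-- the character of a monomial -/
noncomputable def chi (s t : Fin m → Fˣ) (d : (Fin m × Fin m) →₀ ℕ) : Fˣ :=
  (wt (fun i => Additive.ofMul (s i)) (fun j => Additive.ofMul (t j)) d).toMul

theorem chi_eq (s t : Fin m → Fˣ) (d : (Fin m × Fin m) →₀ ℕ) :
    (chi s t d : F) = d.prod fun v n => ((s v.1 : F) * (t v.2 : F)) ^ n := by
  classical
  induction d using Finsupp.induction_linear with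
  | zero => simp [chi]
  | add f g hf hg =>
    rw [Finsupp.prod_add_index' (by simp) (by intros; rw [pow_add]), ← hf, ← hg]
    simp [chi]
  | single v n =>
    rw [Finsupp.prod_single_index (by simp)]
    simp [chi, wt]

theorem coeff_scale (s t : Fin m → Fˣ) (d : (Fin m × Fin m) →₀ ℕ)
    (p : MvPolynomial (Fin m × Fin m) F) :
    coeff d (scale s t p) = (chi s t d : F) * coeff d p := by
  classical
  induction p using MvPolynomial.induction_on' with
  | monomial u a =>
    have h1 : scale s t (monomial u a) = monomial u ((chi s t u : F) * a) := by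
      rw [scale, aeval_monomial, chi_eq]
      have h2 : (u.prod fun v n => (C ((s v.1 : F) * (t v.2 : F)) * X v) ^ n :
          MvPolynomial (Fin m × Fin m) F) =
          C (u.prod fun v n => ((s v.1 : F) * (t v.2 : F)) ^ n) * u.prod fun v n => X v ^ n := by
        simp only [mul_pow]
        rw [Finsupp.prod_mul]
        congr 1
        rw [map_finsuppProd]
        refine Finsupp.prod_congr fun v _ => ?_
        rw [← map_pow, mul_pow]
      rw [h2, algebraMap_eq, ← mul_assoc, ← C_mul, monomial_eq (s := u)]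
      ring_nf
    rw [h1, coeff_monomial, coeff_monomial]
    split_ifs with h
    · rw [h]
    · rw [mul_zero]
  | add p q hp hq => rw [map_add, coeff_add, coeff_add, hp, hq, mul_add]

theorem coeff_mul_C' (d : (Fin m × Fin m) →₀ ℕ) (p : MvPolynomial (Fin m × Fin m) F) (a : F) :
    coeff d (p * C a) = coeff d p * a := by
  rw [mul_comm, coeff_C_mul, mul_comm]

/-- coefficient matrix -/
noncomputable def coefM {N : ℕ} (d : (Fin m × Fin m) →₀ ℕ)
    (A : Matrix (Fin N) (Fin N) (MvPolynomial (Fin m × Fin m) F)) :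
    Matrix (Fin N) (Fin N) F := A.map (coeff d)

theorem coefM_mul {N : ℕ} (d : (Fin m × Fin m) →₀ ℕ)
    (A : Matrix (Fin N) (Fin N) (MvPolynomial (Fin m × Fin m) F))
    (R E : Matrix (Fin N) (Fin N) F) :
    coefM d (R.map C * A * E.map C) = R * coefM d A * E := by
  ext a b
  simp only [coefM, Matrix.map_apply, Matrix.mul_apply, coeff_sum, coeff_mul_C', coeff_C_mul]

theorem sym_lower_bound [IsAlgClosed F] (hm : 3 ≤ m) {N : ℕ}
    (A : Matrix (Fin N) (Fin N) (MvPolynomial (Fin m × Fin m) F))
    (hdeg : ∀ a b, (A a b).totalDegree ≤ 1)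
    (h0 : constantCoeff A.det = 0)
    (h6 : ∀ a b c d e f : Equiv.Perm (Fin m),
      coeff (permMon a) A.det * coeff (permMon b) A.det * coeff (permMon c) A.det +
      coeff (permMon d) A.det * coeff (permMon e) A.det * coeff (permMon f) A.det ≠ 0)
    (s t : Fin m → Fˣ) (hg : Generic s t) (P Q : Matrix (Fin N) (Fin N) F)
    (hP : IsUnit P) (hQ : IsUnit Q)
    (h : A.map (scale s t) = P.map C * A * Q.map C) : 2 ^ m ≤ N + 1 := by
  classical
  have hfin : finrank F (Fin N → F) = N := by simp
  let D : Matrix (Fin N) (Fin N) F := Q⁻¹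
  have hQD : Q * D = 1 := Matrix.mul_nonsing_inv Q ((Matrix.isUnit_iff_isUnit_det Q).mp hQ)
  have hDQ : D * Q = 1 := Matrix.nonsing_inv_mul Q ((Matrix.isUnit_iff_isUnit_det Q).mp hQ)
  obtain ⟨e, μ, he1, he2⟩ := exists_adapted hfin (Matrix.toLin' D)
  obtain ⟨f, l, hf1, hf2⟩ := exists_adapted hfin (Matrix.toLin' P)
  -- eigenvalues are nonzero
  have hne : ∀ (T : Matrix (Fin N) (Fin N) F), IsUnit T → ∀ (x : Fin N → F) (ν : F),
      x ∈ End.maxGenEigenspace (Matrix.toLin' T) ν → x ≠ 0 → ν ≠ 0 := by
    intro T hT x ν hx hx0 hν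
    subst hν
    rw [End.mem_maxGenEigenspace] at hx
    obtain ⟨k, hk⟩ := hx
    rw [zero_smul, sub_zero] at hk
    apply hx0
    have hinj : Function.Injective (Matrix.toLin' T) := by
      rw [Matrix.toLin'_apply']
      exact (Matrix.mulVec_injective_iff_isUnit).mpr hT
    have hinjk : Function.Injective ((Matrix.toLin' T) ^ k) := by
      rw [Module.End.coe_pow]
      exact hinj.iterate k
    exact hinjk (by rw [hk, map_zero])
  have hD : IsUnit D := ⟨⟨D, Q, hDQ, hQD⟩, rfl⟩
  have hμ : ∀ b, μ b ≠ 0 := fun b => hne D hD _ _ (he1 b) (e.ne_zero b)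
  have hl : ∀ a, l a ≠ 0 := fun a => hne P hP _ _ (hf1 a) (f.ne_zero a)
  -- the intertwining relation
  have hint : ∀ d, (chi s t d : F) • ((coefM d A) * D) = P * coefM d A := by
    intro d
    have h1 : coefM d (A.map (scale s t)) = (chi s t d : F) • coefM d A := by
      ext a b
      simp only [coefM, Matrix.map_apply, Matrix.smul_apply, coeff_scale, smul_eq_mul]
    rw [h, coefM_mul] at h1
    rw [← Matrix.smul_mul, ← h1, Matrix.mul_assoc, hQD, Matrix.mul_one]
  let R : Matrix (Fin N) (Fin N) F := f.toMatrix (Pi.basisFun F (Fin N))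
  let E : Matrix (Fin N) (Fin N) F := (Pi.basisFun F (Fin N)).toMatrix e
  have hR : IsUnit R.det := by
    rw [← Matrix.isUnit_iff_isUnit_det]
    exact ⟨⟨R, (Pi.basisFun F (Fin N)).toMatrix f, Basis.toMatrix_mul_toMatrix_flip _ _,
      Basis.toMatrix_mul_toMatrix_flip _ _⟩, rfl⟩
  have hE : IsUnit E.det := by
    rw [← Matrix.isUnit_iff_isUnit_det]
    exact ⟨⟨E, e.toMatrix (Pi.basisFun F (Fin N)), Basis.toMatrix_mul_toMatrix_flip _ _,
      Basis.toMatrix_mul_toMatrix_flip _ _⟩, rfl⟩
  have hentry : ∀ (X : Matrix (Fin N) (Fin N) F) a b,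
      (R * X * E) a b = f.repr (Matrix.toLin' X (e b)) a := by
    intro X a b
    have h1 : ∀ x : Fin N → F, (R.mulVec x) a = f.repr x a := by
      intro x
      have h2 : x = ∑ i, x i • (Pi.basisFun F (Fin N)) i := by
        ext j
        simp [Finset.sum_apply, Pi.single_apply]
      conv_rhs => rw [h2]
      rw [map_sum, Finsupp.finsetSum_apply, Matrix.mulVec, dotProduct]
      refine Finset.sum_congr rfl fun i _ => ?_
      rw [map_smul, Finsupp.smul_apply, smul_eq_mul, mul_comm]
      rfl
    rw [← h1, Matrix.mul_assoc, Matrix.mul_apply]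
    rw [Matrix.mulVec, dotProduct]
    refine Finset.sum_congr rfl fun i _ => ?_
    congr 1
  have hgrade : ∀ d a b, (R * coefM d A * E) a b ≠ 0 → l a = (chi s t d : F) * μ b := by
    intro d a b hab
    rw [hentry] at hab
    refine hf2 _ _ ?_ a hab
    refine intertwine (Matrix.toLin' D) (Matrix.toLin' P) (Matrix.toLin' (coefM d A)) _ _ ?_
      (he1 b)
    rw [← Matrix.toLin'_mul, ← Matrix.toLin'_mul, ← hint d, map_smul]
  -- the new matrix
  let A' : Matrix (Fin N) (Fin N) (MvPolynomial (Fin m × Fin m) F) := R.map C * A * E.map C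
  have hcoef' : ∀ d a b, coeff d (A' a b) = (R * coefM d A * E) a b := by
    intro d a b
    rw [← coefM_mul]
    rfl
  have hdet' : ∀ d, coeff d A'.det = R.det * E.det * coeff d A.det := by
    intro d
    have h1 : A'.det = C R.det * A.det * C E.det := by
      simp only [A', Matrix.det_mul]
      congr 1
      · congr 1
        exact (RingHom.map_det C R).symm
      · exact (RingHom.map_det C E).symm
    rw [h1, coeff_mul_C', coeff_C_mul]
    ring
  let A'' : Matrix (Fin N) (Fin N) (MvPowerSeries (Fin m × Fin m) F) :=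
    A'.map (MvPolynomial.coeToMvPowerSeries.ringHom)
  have hdet'' : ∀ d, MvPowerSeries.coeff d A''.det = R.det * E.det * coeff d A.det := by
    intro d
    have h1 : A''.det = MvPolynomial.coeToMvPowerSeries.ringHom A'.det :=
      (RingHom.map_det _ _).symm
    rw [h1, coeToMvPowerSeries.ringHom_apply, MvPolynomial.coeff_coe, hdet']
  have hκ : R.det * E.det ≠ 0 := mul_ne_zero hR.ne_zero hE.ne_zero
  refine graded_lower_bound hm hg.sep A''
    (fun a => -Additive.ofMul (Units.mk0 (l a) (hl a)))
    (fun b => -Additive.ofMul (Units.mk0 (μ b) (hμ b))) ?_ ?_ ?_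
  · intro a b d _ hd
    have hd' : coeff d (A' a b) ≠ 0 := by
      simpa [A'', MvPolynomial.coeff_coe] using hd
    rw [hcoef'] at hd'
    constructor
    · have h1 := hgrade d a b hd'
      have h2 : Units.mk0 (l a) (hl a) = chi s t d * Units.mk0 (μ b) (hμ b) := by
        ext
        simpa using h1
      rw [h2, ofMul_mul, chi, ofMul_toMul]
      abel
    · intro t' ht1 ht2
      exfalso
      have h3 : ∃ i j, coeff d (A i j) ≠ 0 := by
        by_contra hcon
        push Not at hcon
        apply hd'
        have : coefM d A = 0 := by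
          ext i j
          exact hcon i j
        rw [this]
        simp
      obtain ⟨i, j, hij⟩ := h3
      have h4 := MvPolynomial.le_totalDegree (mem_support_iff.mpr hij)
      have h5 := h4.trans (hdeg i j)
      have h6 : d.degree ≤ 1 := h5
      omega
  · rw [← MvPowerSeries.coeff_zero_eq_constantCoeff_apply, hdet'']
    have : coeff 0 A.det = 0 := h0
    rw [this, mul_zero]
  · intro a b c d e f
    rw [hdet'', hdet'', hdet'', hdet'', hdet'', hdet'']
    intro hcon
    apply h6 a b c d e f
    have h7 : (R.det * E.det) ^ 3 * (coeff (permMon a) A.det * coeff (permMon b) A.det *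
        coeff (permMon c) A.det + coeff (permMon d) A.det * coeff (permMon e) A.det *
        coeff (permMon f) A.det) = 0 := by
      linear_combination hcon
    exact (mul_eq_zero.mp h7).resolve_left (pow_ne_zero _ hκ)

end Pool.Agent.H735R2.OneSym
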