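import Mathlib
import Pool.Agent.H735R2.OneSym.Sym

/-!
Restriction to some rows and columns.
-/

namespace Pool.Agent.H735R2.OneSym

open Finset MvPolynomial

variable {m r : ℕ} {F : Type*} [Field F]

/-- a substitution of variables by polynomials of degree at most one does not increase the degree
of a polynomial of degree at most one -/
theorem totalDegree_aeval_le_one {σ τ : Type*} (g : σ → MvPolynomial τ F)
    (hg : ∀ i, (g i).totalDegree ≤ 1) {p : MvPolynomial σ F} (hp : p.totalDegree ≤ 1) :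
    (aeval g p).totalDegree ≤ 1 := by
  rw [← mem_restrictTotalDegree, p.as_sum, map_sum]
  refine Submodule.sum_mem _ fun d hd => ?_
  rw [mem_restrictTotalDegree, aeval_monomial]
  have hd1 : d.degree ≤ 1 := (le_totalDegree hd).trans hp
  refine (totalDegree_mul _ _).trans ?_
  rw [algebraMap_eq, totalDegree_C, zero_add, Finsupp.prod]
  refine (totalDegree_finsetProd _ _).trans ?_
  refine le_trans (Finset.sum_le_sum fun i _ => (totalDegree_pow (g i) (d i)).trans
    (Nat.mul_le_mul_left _ (hg i))) ?_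
  simp only [mul_one]
  exact hd1

/-- the substitution `x (ρ a, π (ρ b)) ↦ x (a, b)`, `x (i, π i) ↦ 1` for `i` not in the range
of `ρ`, all other variables `↦ 0` -/
noncomputable def subX (ρ : Fin r ↪ Fin m) (π : Equiv.Perm (Fin m)) (v : Fin m × Fin m) :
    MvPolynomial (Fin r × Fin r) F := by
  classical
  exact if h : ∃ w : Fin r × Fin r, v = (ρ w.1, π (ρ w.2)) then X h.choose
    else if v.1 ∉ Set.range ρ ∧ v.2 = π v.1 then 1 else 0

theorem subX_in (ρ : Fin r ↪ Fin m) (π : Equiv.Perm (Fin m)) (a b : Fin r) :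
    (subX ρ π (ρ a, π (ρ b)) : MvPolynomial (Fin r × Fin r) F) = X (a, b) := by
  classical
  have h : ∃ w : Fin r × Fin r, (ρ a, π (ρ b)) = (ρ w.1, π (ρ w.2)) := ⟨(a, b), rfl⟩
  rw [subX, dif_pos h]
  congr 1
  have h1 := h.choose_spec
  obtain ⟨h2, h3⟩ := Prod.ext_iff.mp h1
  exact (Prod.ext (ρ.injective h2) (ρ.injective (π.injective h3))).symm

theorem subX_out (ρ : Fin r ↪ Fin m) (π : Equiv.Perm (Fin m)) {i : Fin m}
    (hi : i ∉ Set.range ρ) :
    (subX ρ π (i, π i) : MvPolynomial (Fin r × Fin r) F) = 1 := by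
  classical
  rw [subX, dif_neg, if_pos ⟨hi, rfl⟩]
  rintro ⟨w, hw⟩
  exact hi ⟨w.1, (Prod.ext_iff.mp hw).1.symm⟩

theorem subX_ne_zero (ρ : Fin r ↪ Fin m) (π : Equiv.Perm (Fin m)) {v : Fin m × Fin m}
    (h : (subX ρ π v : MvPolynomial (Fin r × Fin r) F) ≠ 0) :
    (∃ a b, v = (ρ a, π (ρ b))) ∨ (v.1 ∉ Set.range ρ ∧ v.2 = π v.1) := by
  classical
  rw [subX] at h
  split_ifs at h with h1 h2
  · obtain ⟨w, hw⟩ := h1
    exact Or.inl ⟨w.1, w.2, hw⟩
  · exact Or.inr h2
  · exact absurd rfl h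

theorem subX_degree (ρ : Fin r ↪ Fin m) (π : Equiv.Perm (Fin m)) (v : Fin m × Fin m) :
    (subX ρ π v : MvPolynomial (Fin r × Fin r) F).totalDegree ≤ 1 := by
  classical
  rw [subX]
  split_ifs
  · rw [totalDegree_X]
  · rw [totalDegree_one]
    exact Nat.zero_le _
  · rw [totalDegree_zero]
    exact Nat.zero_le _

/-- the substitution as an algebra homomorphism -/
noncomputable def subs (ρ : Fin r ↪ Fin m) (π : Equiv.Perm (Fin m)) :
    MvPolynomial (Fin m × Fin m) F →ₐ[F] MvPolynomial (Fin r × Fin r) F :=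
  aeval (subX ρ π)

theorem scale_subs (ρ : Fin r ↪ Fin m) (π : Equiv.Perm (Fin m)) (s t : Fin m → Fˣ)
    (hst : ∀ i, i ∉ Set.range ρ → s i * t (π i) = 1) (p : MvPolynomial (Fin m × Fin m) F) :
    scale (fun a => s (ρ a)) (fun a => t (π (ρ a))) (subs ρ π p) = subs ρ π (scale s t p) := by
  classical
  rw [← AlgHom.comp_apply, ← AlgHom.comp_apply]
  congr 1
  apply algHom_ext
  rintro ⟨i, j⟩
  rw [AlgHom.comp_apply, AlgHom.comp_apply, subs, aeval_X, scale, scale, aeval_X, map_mul,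
    aeval_X, aeval_C, algebraMap_eq]
  by_cases h0 : (subX ρ π (i, j) : MvPolynomial (Fin r × Fin r) F) = 0
  · rw [h0, map_zero, mul_zero]
  · rcases subX_ne_zero ρ π h0 with ⟨a, b, h1⟩ | ⟨h1, h2⟩
    · rw [h1, subX_in, aeval_X]
    · simp only at h1 h2
      subst h2
      rw [subX_out ρ π h1, map_one]
      have h3 := hst i h1
      have h4 : (s i : F) * (t (π i) : F) = 1 := by
        rw [← Units.val_mul, h3, Units.val_one]
      rw [h4, C_1, one_mul]

theorem prod_X_eq (f : Fin r → Fin r) : (∏ a, X (a, f a) : MvPolynomial (Fin r × Fin r) F) =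
    monomial (∑ a, Finsupp.single (a, f a) 1) 1 := by
  rw [monomial_sum_index, C_1, one_mul]
  rfl

theorem sum_single_injective {f : Fin r → Fin r} {σ : Equiv.Perm (Fin r)}
    (h : ∑ a, Finsupp.single (a, f a) 1 = permMon σ) (a : Fin r) : f a = σ a := by
  classical
  have h1 := DFunLike.congr_fun h (a, σ a)
  rw [permMon_apply, if_pos rfl, Finsupp.finsetSum_apply] at h1
  by_contra hne
  rw [Finset.sum_eq_zero] at h1
  · omega
  · intro b _
    rw [Finsupp.single_apply, if_neg]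
    intro h2
    obtain ⟨h3, h4⟩ := Prod.ext_iff.mp h2
    simp only at h3 h4
    subst h3
    exact hne h4

theorem prod_split (ρ : Fin r ↪ Fin m) {M : Type*} [CommMonoid M] (c : Fin m → M)
    (hc : ∀ i, i ∉ Set.range ρ → c i = 1) : ∏ i, c i = ∏ a, c (ρ a) := by
  classical
  rw [← Finset.prod_map univ ρ c]
  symm
  apply Finset.prod_subset (Finset.subset_univ _)
  intro i _ hi
  apply hc
  rintro ⟨a, rfl⟩
  exact hi (Finset.mem_map_of_mem ρ (mem_univ a))

theorem coeff_subs_prod (ρ : Fin r ↪ Fin m) (π : Equiv.Perm (Fin m)) (τ : Equiv.Perm (Fin m))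
    (σ : Equiv.Perm (Fin r)) :
    coeff (permMon σ) (∏ i, (subX ρ π (i, τ i) : MvPolynomial (Fin r × Fin r) F)) =
      if τ = π * σ.viaFintypeEmbedding ρ then 1 else 0 := by
  classical
  split_ifs with h
  · subst h
    rw [prod_split ρ]
    · have h1 : ∀ a, (subX ρ π (ρ a, (π * σ.viaFintypeEmbedding ρ) (ρ a)) :
          MvPolynomial (Fin r × Fin r) F) = X (a, σ a) := by
        intro a
        rw [Equiv.Perm.mul_apply, Equiv.Perm.viaFintypeEmbedding_apply_image, subX_in]
      rw [Finset.prod_congr rfl fun a _ => h1 a, prod_X_eq, coeff_monomial, if_pos]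
      rfl
    · intro i hi
      rw [Equiv.Perm.mul_apply, Equiv.Perm.viaFintypeEmbedding_apply_notMem_range _ _ hi,
        subX_out ρ π hi]
  · by_contra hne
    have hprod : (∏ i, (subX ρ π (i, τ i) : MvPolynomial (Fin r × Fin r) F)) ≠ 0 := by
      intro h0
      rw [h0, coeff_zero] at hne
      exact hne rfl
    have hfac : ∀ i, (subX ρ π (i, τ i) : MvPolynomial (Fin r × Fin r) F) ≠ 0 := by
      intro i hi
      exact hprod (Finset.prod_eq_zero (mem_univ i) hi)
    have hout : ∀ i, i ∉ Set.range ρ → τ i = π i := by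
      intro i hi
      rcases subX_ne_zero ρ π (hfac i) with ⟨a, b, h1⟩ | ⟨_, h2⟩
      · exact absurd ⟨a, (Prod.ext_iff.mp h1).1.symm⟩ hi
      · exact h2
    have hin : ∀ a, ∃ b, τ (ρ a) = π (ρ b) := by
      intro a
      rcases subX_ne_zero ρ π (hfac (ρ a)) with ⟨a', b, h1⟩ | ⟨h1, _⟩
      · exact ⟨b, (Prod.ext_iff.mp h1).2⟩
      · exact absurd ⟨a, rfl⟩ h1
    choose f hf using hin
    rw [prod_split ρ] at hne
    · have h1 : ∀ a, (subX ρ π (ρ a, τ (ρ a)) : MvPolynomial (Fin r × Fin r) F) = X (a, f a) := by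
        intro a
        rw [hf, subX_in]
      rw [Finset.prod_congr rfl fun a _ => h1 a, prod_X_eq, coeff_monomial] at hne
      have h2 : ∑ a, Finsupp.single (a, f a) 1 = permMon σ := by
        by_contra h3
        rw [if_neg h3] at hne
        exact hne rfl
      have h3 := sum_single_injective h2
      apply h
      ext1 i
      by_cases hi : i ∈ Set.range ρ
      · obtain ⟨a, rfl⟩ := hi
        rw [Equiv.Perm.mul_apply, Equiv.Perm.viaFintypeEmbedding_apply_image, hf, h3]
      · rw [Equiv.Perm.mul_apply, Equiv.Perm.viaFintypeEmbedding_apply_notMem_range _ _ hi,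
          hout i hi]
    · intro i hi
      rw [hout i hi, subX_out ρ π hi]

/-- restriction of a weighted permanent -/
theorem coeff_subs (ρ : Fin r ↪ Fin m) (π : Equiv.Perm (Fin m)) (α : Equiv.Perm (Fin m) → F)
    (σ : Equiv.Perm (Fin r)) :
    coeff (permMon σ) (subs ρ π (∑ τ : Equiv.Perm (Fin m), C (α τ) * ∏ i, X (i, τ i))) =
      α (π * σ.viaFintypeEmbedding ρ) := by
  classical
  rw [map_sum, coeff_sum]
  have h1 : ∀ τ : Equiv.Perm (Fin m), coeff (permMon σ) (subs ρ π (C (α τ) * ∏ i, X (i, τ i))) =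
      if τ = π * σ.viaFintypeEmbedding ρ then α τ else 0 := by
    intro τ
    rw [map_mul, ← algebraMap_eq, AlgHom.commutes, algebraMap_eq, coeff_C_mul, map_prod]
    simp only [subs, aeval_X]
    rw [coeff_subs_prod]
    split_ifs
    · rw [mul_one]
    · rw [mul_zero]
  rw [Finset.sum_congr rfl fun τ _ => h1 τ, Finset.sum_ite_eq']
  simp

theorem constantCoeff_subs (hr : 1 ≤ r) (ρ : Fin r ↪ Fin m) (π : Equiv.Perm (Fin m))
    (α : Equiv.Perm (Fin m) → F) :
    constantCoeff (subs ρ π (∑ τ : Equiv.Perm (Fin m), C (α τ) * ∏ i, X (i, τ i))) = 0 := by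
  classical
  rw [map_sum, map_sum]
  refine Finset.sum_eq_zero fun τ _ => ?_
  rw [map_mul, map_mul, map_prod, map_prod]
  rw [Finset.prod_eq_zero (mem_univ (ρ ⟨0, hr⟩)), mul_zero]
  rw [subs, aeval_X]
  by_cases h0 : (subX ρ π (ρ ⟨0, hr⟩, τ (ρ ⟨0, hr⟩)) : MvPolynomial (Fin r × Fin r) F) = 0
  · rw [h0, map_zero]
  · rcases subX_ne_zero ρ π h0 with ⟨a, b, h1⟩ | ⟨h1, _⟩
    · rw [h1, subX_in]
      exact constantCoeff_X (R := F) _
    · exact absurd ⟨_, rfl⟩ h1

/-- the lower bound `2 ^ r - 1` for one symmetry which is generic on `r` rows and columns -/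
theorem restr_bound [IsAlgClosed F] (hr : 3 ≤ r) {N : ℕ}
    (A : Matrix (Fin N) (Fin N) (MvPolynomial (Fin m × Fin m) F))
    (hdeg : ∀ a b, (A a b).totalDegree ≤ 1)
    (α : Equiv.Perm (Fin m) → F)
    (hA : A.det = ∑ τ : Equiv.Perm (Fin m), C (α τ) * ∏ i, X (i, τ i))
    (h6 : ∀ a b c d e f : Equiv.Perm (Fin m), α a * α b * α c + α d * α e * α f ≠ 0)
    (s t : Fin m → Fˣ) (ρ : Fin r ↪ Fin m) (π : Equiv.Perm (Fin m))
    (hst : ∀ i, i ∉ Set.range ρ → s i * t (π i) = 1)
    (hg : Generic (fun a => s (ρ a)) (fun a => t (π (ρ a))))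
    (P Q : Matrix (Fin N) (Fin N) F) (hP : IsUnit P) (hQ : IsUnit Q)
    (h : A.map (scale s t) = P.map C * A * Q.map C) : 2 ^ r ≤ N + 1 := by
  classical
  have hdet : (A.map (subs ρ π)).det = subs ρ π A.det := by
    rw [AlgHom.map_det]
    rfl
  refine sym_lower_bound hr (A.map (subs ρ π)) ?_ ?_ ?_ (fun a => s (ρ a))
    (fun a => t (π (ρ a))) hg P Q hP hQ ?_
  · intro a b
    exact totalDegree_aeval_le_one _ (subX_degree ρ π) (hdeg a b)
  · rw [hdet, hA, constantCoeff_subs (by omega)]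
  · intro a b c d e f
    rw [hdet, hA]
    simp only [coeff_subs]
    exact h6 _ _ _ _ _ _
  · have h1 : (A.map (subs ρ π)).map (scale (fun a => s (ρ a)) (fun a => t (π (ρ a)))) =
        (A.map (scale s t)).map (subs ρ π) := by
      ext1 a b
      simp only [Matrix.map_apply]
      exact scale_subs ρ π s t hst (A a b)
    rw [h1, h, Matrix.map_mul, Matrix.map_mul]
    congr 1
    · congr 1
      ext1 a b
      simp only [Matrix.map_apply]
      rw [← algebraMap_eq, AlgHom.commutes, algebraMap_eq]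
    · ext1 a b
      simp only [Matrix.map_apply]
      rw [← algebraMap_eq, AlgHom.commutes, algebraMap_eq]

end Pool.Agent.H735R2.OneSym
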