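import Mathlib
import Pool.Agent.H735R2.OneSym.Restr

/-!
Arbitrary fields.
-/

namespace Pool.Agent.H735R2.OneSym

open Finset MvPolynomial

variable {m r : ℕ} {F K : Type*} [Field F] [Field K]

theorem Generic.map (f : F →+* K) {s t : Fin m → Fˣ} (hg : Generic s t) :
    Generic (fun i => Units.map (f : F →* K) (s i)) (fun j => Units.map (f : F →* K) (t j)) := by
  intro S T S' T' h1 h2 h3
  apply hg S T S' T' h1 h2
  apply Units.map_injective (f := (f : F →* K)) f.injective
  simpa only [map_mul, map_prod] using h3

theorem scale_map (f : F →+* K) (s t : Fin m → Fˣ) (p : MvPolynomial (Fin m × Fin m) F) :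
    scale (fun i => Units.map (f : F →* K) (s i)) (fun j => Units.map (f : F →* K) (t j))
      (MvPolynomial.map f p) = MvPolynomial.map f (scale s t p) := by
  induction p using MvPolynomial.induction_on with
  | C a =>
    rw [map_C, ← algebraMap_eq, AlgHom.commutes, ← algebraMap_eq, AlgHom.commutes, algebraMap_eq,
      algebraMap_eq, map_C]
  | add p q hp hq => rw [map_add, map_add, map_add, map_add, hp, hq]
  | mul_X p v hp =>
    rw [map_mul (MvPolynomial.map f), map_mul (scale _ _), map_mul (scale _ _),
      map_mul (MvPolynomial.map f), hp, map_X]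
    congr 1
    rw [scale, scale, aeval_X, aeval_X, map_mul (MvPolynomial.map f), map_C, map_X, map_mul f]
    rfl

theorem totalDegree_map_le_one (f : F →+* K) {σ : Type*} {p : MvPolynomial σ F}
    (hp : p.totalDegree ≤ 1) : (MvPolynomial.map f p).totalDegree ≤ 1 := by
  rw [totalDegree]
  refine Finset.sup_le fun d hd => ?_
  exact (le_totalDegree (support_map_subset f p hd)).trans hp

/-- the lower bound `2 ^ r - 1` for one symmetry which is generic on `r` rows and columns,
over any field -/
theorem restr_bound' (hr : 3 ≤ r) {N : ℕ}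
    (A : Matrix (Fin N) (Fin N) (MvPolynomial (Fin m × Fin m) F))
    (hdeg : ∀ a b, (A a b).totalDegree ≤ 1)
    (α : Equiv.Perm (Fin m) → F)
    (hA : A.det = ∑ τ : Equiv.Perm (Fin m), C (α τ) * ∏ i, X (i, τ i))
    (h6 : ∀ a b c d e f : Equiv.Perm (Fin m), α a * α b * α c + α d * α e * α f ≠ 0)
    (s t : Fin m → Fˣ) (ρ : Fin r ↪ Fin m) (π : Equiv.Perm (Fin m))
    (hst : ∀ i, i ∉ Set.range ρ → s i * t (π i) = 1)
    (hg : Generic (fun a => s (ρ a)) (fun a => t (π (ρ a))))
    (P Q : Matrix (Fin N) (Fin N) F) (hP : IsUnit P) (hQ : IsUnit Q)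
    (h : A.map (scale s t) = P.map C * A * Q.map C) : 2 ^ r ≤ N + 1 := by
  classical
  let K := AlgebraicClosure F
  let f : F →+* K := algebraMap F K
  refine restr_bound (F := K) hr (A.map (MvPolynomial.map f)) ?_ (fun τ => f (α τ)) ?_ ?_
    (fun i => Units.map (f : F →* K) (s i)) (fun j => Units.map (f : F →* K) (t j)) ρ π ?_
    (hg.map f) (P.map f) (Q.map f) ?_ ?_ ?_
  · intro a b
    exact totalDegree_map_le_one f (hdeg a b)
  · have h1 : (A.map (MvPolynomial.map f)).det = MvPolynomial.map f A.det := by
      rw [RingHom.map_det]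
      rfl
    rw [h1, hA, map_sum]
    refine Finset.sum_congr rfl fun τ _ => ?_
    rw [map_mul, map_C, map_prod]
    simp only [map_X]
  · intro a b c d e g hcon
    apply h6 a b c d e g
    apply f.injective
    rw [map_zero, ← hcon, map_add, map_mul, map_mul, map_mul, map_mul]
  · intro i hi
    rw [← map_mul, hst i hi, map_one]
  · exact (RingHom.mapMatrix f).isUnit_map hP
  · exact (RingHom.mapMatrix f).isUnit_map hQ
  · have h1 : (A.map (MvPolynomial.map f)).map (scale (fun i => Units.map (f : F →* K) (s i))
        (fun j => Units.map (f : F →* K) (t j))) =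
        (A.map (scale s t)).map (MvPolynomial.map f) := by
      ext1 a b
      simp only [Matrix.map_apply]
      exact scale_map f s t (A a b)
    rw [h1, h, Matrix.map_mul, Matrix.map_mul]
    congr 1
    · congr 1
      ext1 a b
      simp only [Matrix.map_apply]
      rw [map_C]
    · ext1 a b
      simp only [Matrix.map_apply]
      rw [map_C]

/-- the permanent of the matrix of variables, as a weighted permanent -/
theorem permanent_eq' : (Matrix.of (fun i j : Fin m =>
    (X (i, j) : MvPolynomial (Fin m × Fin m) F))).permanent =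
    ∑ σ : Equiv.Perm (Fin m), C 1 * ∏ i, X (i, σ i) := by
  classical
  rw [← Matrix.permanent_transpose, Matrix.permanent]
  refine Finset.sum_congr rfl fun σ _ => ?_
  rw [C_1, one_mul]
  rfl

end Pool.Agent.H735R2.OneSym
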