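import Mathlib
import Pool.Agent.H735R2.OneSym.Main

/-!
Graded representations whose constant term is nonzero.
-/

namespace Pool.Agent.H735R2.OneSym

open Finset

variable {m : ℕ} {F Γ : Type*} [Field F] [AddCommGroup Γ] {ε φ : Fin m → Γ}

theorem det_ext' {σ : Type*} {k : ℕ} (M : Matrix (Fin k) (Fin k) (MvPowerSeries σ F))
    (d : σ →₀ ℕ) (hd : MvPowerSeries.coeff d M.det ≠ 0) :
    ∃ (s : Equiv.Perm (Fin k)) (l : Fin k → (σ →₀ ℕ)), ∑ b, l b = d ∧
      ∀ b, MvPowerSeries.coeff (l b) (M (s b) b) ≠ 0 := by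
  classical
  rw [Matrix.det_apply, map_sum] at hd
  obtain ⟨s, _, hs⟩ := Finset.exists_ne_zero_of_sum_ne_zero hd
  have hs2 : MvPowerSeries.coeff d (∏ b, M (s b) b) ≠ 0 := by
    intro h0
    apply hs
    rcases Int.units_eq_one_or (Equiv.Perm.sign s) with h | h
    · rw [h, one_smul, h0]
    · rw [h, Units.neg_smul, one_smul, map_neg, h0, neg_zero]
  rw [MvPowerSeries.coeff_prod] at hs2
  obtain ⟨l, hl, hne⟩ := Finset.exists_ne_zero_of_sum_ne_zero hs2
  rw [Finset.mem_finsuppAntidiag] at hl
  refine ⟨s, l, hl.1, fun b => ?_⟩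
  intro h
  exact hne (Finset.prod_eq_zero (mem_univ b) h)

/-- sums of labels along distinct vertices -/
theorem partial_sum_le {σ' : Type*} {N : ℕ} {l : Fin N → (σ' →₀ ℕ)} {D : σ' →₀ ℕ}
    (h : ∑ b, l b = D) (f : ℕ → Fin N) (n : ℕ) (hf : Set.InjOn f (Set.Iio n)) :
    ∑ j ∈ Finset.range n, l (f j) ≤ D := by
  classical
  rw [← h, ← Finset.sum_image (s := Finset.range n) (g := f) (f := l)]
  · exact Finset.sum_le_sum_of_subset_of_nonneg (subset_univ _) (fun _ _ _ => zero_le)
  · intro a ha b hb hab
    exact hf (by simpa using ha) (by simpa using hb) hab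

/-- the facts about one permutation -/
theorem walk (hm : 2 ≤ m) (hsep : Sep ε φ) {N : ℕ} (c : Fin N → Γ)
    (π : Equiv.Perm (Fin m)) (s : Equiv.Perm (Fin N)) (l : Fin N → ((Fin m × Fin m) →₀ ℕ))
    (hl : ∑ b, l b = permMon π) (hdeg : ∀ b, (l b).degree ≤ 1)
    (h0 : ∀ b, l b = 0 → s b = b) (hgr : ∀ b, c (s b) = wt ε φ (l b) + c b)
    {k : ℕ} (hk0 : 0 < k) (hkm : k < m) :
    (univ.filter fun b => l b ≠ 0).card = m ∧ ∀ b, l b ≠ 0 → s^[k] b ≠ b ∧
      ∃ S T : Finset (Fin m), S.card = k ∧ S.map π.toEmbedding = T ∧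
        c (s^[k] b) = (∑ i ∈ S, ε i) + ∑ j ∈ T, φ j + c b := by
  classical
  have hwalk : ∀ (b : Fin N) (j : ℕ), c (s^[j] b) =
      wt ε φ (∑ i ∈ Finset.range j, l (s^[i] b)) + c b := by
    intro b j
    induction j with
    | zero => simp
    | succ j ih =>
      rw [Function.iterate_succ_apply', hgr, ih, Finset.sum_range_succ, map_add]
      abel
  have hdeg1 : ∀ b, l b ≠ 0 → (l b).degree = 1 := by
    intro b hb
    exact le_antisymm (hdeg b) (one_le_degree hb)
  constructor
  · have h1 := congrArg Finsupp.degree hl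
    rw [map_sum, degree_permMon] at h1
    refine Eq.trans ?_ h1
    rw [Finset.card_filter]
    refine Finset.sum_congr rfl fun b _ => ?_
    split_ifs with h
    · exact (hdeg1 b h).symm
    · push Not at h
      rw [h, map_zero]
  · intro b hb
    -- the orbit stays in the set of labelled vertices
    have horb : ∀ j, l (s^[j] b) ≠ 0 := by
      intro j
      induction j with
      | zero => exact hb
      | succ j ih =>
        intro h1
        rw [Function.iterate_succ_apply'] at h1
        have h2 := h0 _ h1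
        have h3 : s (s^[j] b) = s^[j] b := s.injective h2
        rw [h3] at h1
        exact ih h1
    have hdegs : ∀ j, (∑ i ∈ Finset.range j, l (s^[i] b)).degree = j := by
      intro j
      rw [map_sum, Finset.sum_congr rfl fun i _ => hdeg1 _ (horb i)]
      simp
    let n := Function.minimalPeriod s b
    have hn0 : 0 < n :=
      Function.minimalPeriod_pos_of_mem_periodicPts (s.injective.mem_periodicPts b)
    have hinj : Set.InjOn (fun j => s^[j] b) (Set.Iio n) :=
      Function.iterate_injOn_Iio_minimalPeriod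
    have hmn : m ≤ n := by
      have h1 := partial_sum_le hl (fun j => s^[j] b) n hinj
      have h2 := hwalk b n
      have h3 : s^[n] b = b := Function.isPeriodicPt_minimalPeriod s b
      rw [h3] at h2
      have h4 : wt ε φ (∑ i ∈ Finset.range n, l (s^[i] b)) = 0 := by
        have h5 : 0 + c b = wt ε φ (∑ i ∈ Finset.range n, l (s^[i] b)) + c b := by
          rw [zero_add]
          exact h2
        exact (add_right_cancel h5).symm
      rw [wt_of_le h1] at h4
      have h6 := hsep _ _ ∅ ∅ (card_map _).symm rfl (by rw [h4]; simp)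
      have h7 : (rowsOf π (∑ i ∈ Finset.range n, l (s^[i] b))).Nonempty := by
        apply rowsOf_nonempty h1
        intro h8
        have h9 := hdegs n
        rw [h8, map_zero] at h9
        omega
      have h8 : rowsOf π (∑ i ∈ Finset.range n, l (s^[i] b)) = univ := by
        rcases h6 with ⟨h6, _⟩ | ⟨h6, _⟩ | ⟨h6, _⟩
        · exact absurd h6 h7.ne_empty
        · exact absurd h6 h7.ne_empty
        · exact h6
      have h9 := hdegs n
      rw [degree_of_le h1, h8, card_univ, Fintype.card_fin] at h9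
      exact h9.le
    constructor
    · intro h1
      have h2 := Function.IsPeriodicPt.minimalPeriod_le hk0 (show Function.IsPeriodicPt s k b from h1)
      change n ≤ k at h2
      omega
    · have h1 := partial_sum_le hl (fun j => s^[j] b) k (hinj.mono (by
        intro x hx
        simp only [Set.mem_Iio] at hx ⊢
        omega))
      refine ⟨rowsOf π (∑ i ∈ Finset.range k, l (s^[i] b)), _, ?_, rfl, ?_⟩
      · rw [← degree_of_le h1, hdegs]
      · rw [hwalk, wt_of_le h1]

theorem graded_invertible (hm : 2 ≤ m) (hsep : Sep ε φ) {N : ℕ}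
    (M : Matrix (Fin N) (Fin N) (MvPowerSeries (Fin m × Fin m) F)) (c : Fin N → Γ)
    (h1 : ∀ a b, a ≠ b → MvPowerSeries.coeff 0 (M a b) = 0)
    (hdeg : ∀ a b d, MvPowerSeries.coeff d (M a b) ≠ 0 → d.degree ≤ 1)
    (hgr : ∀ a b d, MvPowerSeries.coeff d (M a b) ≠ 0 → c a = wt ε φ d + c b)
    (hα : ∀ π : Equiv.Perm (Fin m), MvPowerSeries.coeff (permMon π) M.det ≠ 0)
    {k : ℕ} (hk0 : 0 < k) (hkm : k < m) : m * m.choose k ≤ N * N - N := by
  classical
  -- pairs served by a permutation
  have hex : ∀ π : Equiv.Perm (Fin m), ∃ Pr : Finset (Fin N × Fin N), Pr ⊆ univ.offDiag ∧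
      Pr.card = m ∧ ∀ p ∈ Pr, ∃ S T : Finset (Fin m), S.card = k ∧ S.map π.toEmbedding = T ∧
        c p.2 = (∑ i ∈ S, ε i) + ∑ j ∈ T, φ j + c p.1 := by
    intro π
    obtain ⟨s, l, hl, hne⟩ := det_ext' M (permMon π) (hα π)
    obtain ⟨hcard, hw⟩ := walk hm hsep c π s l hl (fun b => hdeg _ _ _ (hne b)) (by
      intro b hb
      by_contra h2
      have h3 := hne b
      rw [hb] at h3
      exact h3 (h1 _ _ h2)) (fun b => hgr _ _ _ (hne b)) hk0 hkm
    refine ⟨(univ.filter fun b => l b ≠ 0).image (fun b => (b, s^[k] b)), ?_, ?_, ?_⟩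
    · intro p hp
      rw [mem_image] at hp
      obtain ⟨b, hb, rfl⟩ := hp
      rw [Finset.mem_offDiag]
      exact ⟨mem_univ _, mem_univ _, Ne.symm (hw b (mem_filter.mp hb).2).1⟩
    · rw [Finset.card_image_of_injective _ (fun a b hab => (Prod.ext_iff.mp hab).1), hcard]
    · intro p hp
      rw [mem_image] at hp
      obtain ⟨b, hb, rfl⟩ := hp
      exact (hw b (mem_filter.mp hb).2).2
  choose Pr hPr1 hPr2 hPr3 using hex
  have hcount : ∀ p : Fin N × Fin N,
      (univ.filter fun π : Equiv.Perm (Fin m) => p ∈ Pr π).card * m.choose k ≤ m.factorial := by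
    intro p
    by_cases hp : ∃ π, p ∈ Pr π
    · obtain ⟨π0, hπ0⟩ := hp
      obtain ⟨S, T, hS, hT, hc⟩ := hPr3 π0 p hπ0
      have hST : S.card = T.card := by rw [← hT, card_map]
      have hSn : S.Nonempty := Finset.card_pos.mp (by omega)
      have hsub : (univ.filter fun π : Equiv.Perm (Fin m) => p ∈ Pr π) ⊆
          univ.filter fun π : Equiv.Perm (Fin m) => S.map π.toEmbedding = T := by
        intro π hπ
        rw [mem_filter] at hπ ⊢
        refine ⟨mem_univ _, ?_⟩
        obtain ⟨S', T', hS', hT', hc'⟩ := hPr3 π p hπ.2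
        have hST' : S'.card = T'.card := by rw [← hT', card_map]
        have hSn' : S'.Nonempty := Finset.card_pos.mp (by omega)
        obtain ⟨e1, e2⟩ := hsep.proper hST hST' hSn hSn' (add_right_cancel (hc.symm.trans hc'))
        rw [e1, e2]
        exact hT'
      have h2 := card_perm_map S T hST
      rw [hS] at h2
      rw [← h2]
      exact Nat.mul_le_mul_right _ (Finset.card_le_card hsub)
    · push Not at hp
      rw [Finset.filter_false_of_mem (fun π _ => hp π)]
      simp
  have hdouble : ∑ π : Equiv.Perm (Fin m), (Pr π).card =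
      ∑ p ∈ (univ : Finset (Fin N)).offDiag,
        (univ.filter fun π : Equiv.Perm (Fin m) => p ∈ Pr π).card := by
    have h2 := Finset.sum_card_bipartiteAbove_eq_sum_card_bipartiteBelow
      (fun (π : Equiv.Perm (Fin m)) (p : Fin N × Fin N) => p ∈ Pr π) (s := univ)
      (t := (univ : Finset (Fin N)).offDiag)
    refine Eq.trans ?_ h2
    refine Finset.sum_congr rfl fun π _ => ?_
    congr 1
    ext p
    rw [Finset.mem_bipartiteAbove]
    exact ⟨fun h => ⟨hPr1 π h, h⟩, fun h => h.2⟩
  simp only [hPr2, Finset.sum_const, Finset.card_univ, Fintype.card_perm, Fintype.card_fin,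
    smul_eq_mul] at hdouble
  have h3 : m.factorial * (m * m.choose k) ≤ m.factorial * (N * N - N) := by
    calc m.factorial * (m * m.choose k) = (m.factorial * m) * m.choose k := by ring
      _ = ∑ p ∈ (univ : Finset (Fin N)).offDiag,
        (univ.filter fun π : Equiv.Perm (Fin m) => p ∈ Pr π).card * m.choose k := by
          rw [hdouble, Finset.sum_mul]
      _ ≤ ∑ _p ∈ (univ : Finset (Fin N)).offDiag, m.factorial :=
          Finset.sum_le_sum fun p _ => hcount p
      _ = m.factorial * (N * N - N) := by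
          rw [Finset.sum_const, Finset.offDiag_card, card_univ, Fintype.card_fin, smul_eq_mul,
            mul_comm]
  exact Nat.le_of_mul_le_mul_left h3 (Nat.factorial_pos m)

end Pool.Agent.H735R2.OneSym
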