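import Mathlib
import Pool.Agent.H735R2.OneSym.Sym

/-!
The approximate version over the complex numbers.
-/

namespace Pool.Agent.H735R2.OneSym

open Finset MvPolynomial

variable {m : ℕ} {F : Type*} [Field F]

theorem chi_permMon (s t : Fin m → Fˣ) (π : Equiv.Perm (Fin m)) :
    chi s t (permMon π) = (∏ i, s i) * ∏ j, t j := by
  classical
  rw [chi, wt_of_le (le_refl (permMon π)), rowsOf_permMon, Finset.map_univ_equiv]
  simp only [toMul_add, toMul_sum, toMul_ofMul]

theorem chi_zero (s t : Fin m → Fˣ) : chi s t 0 = 1 := by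
  rw [chi, map_zero]
  rfl

/-- if the symmetry multiplies the permanent by a scalar different from `1` then the constant
term of the determinant is zero -/
theorem constant_zero {N : ℕ} (A : Matrix (Fin N) (Fin N) (MvPolynomial (Fin m × Fin m) F))
    (s t : Fin m → Fˣ) (P Q : Matrix (Fin N) (Fin N) F)
    (h : A.map (scale s t) = P.map C * A * Q.map C) (π : Equiv.Perm (Fin m))
    (hπ : coeff (permMon π) A.det ≠ 0) (hχ : (∏ i, s i) * ∏ j, t j ≠ 1) :
    constantCoeff A.det = 0 := by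
  classical
  have h1 : scale s t A.det = C P.det * A.det * C Q.det := by
    have h2 : scale s t A.det = (A.map (scale s t)).det := by
      rw [AlgHom.map_det]
      rfl
    rw [h2, h, Matrix.det_mul, Matrix.det_mul]
    congr 1
    · congr 1
      exact (RingHom.map_det C P).symm
    · exact (RingHom.map_det C Q).symm
  have h3 : ∀ d, (chi s t d : F) * coeff d A.det = P.det * Q.det * coeff d A.det := by
    intro d
    have h4 := congrArg (coeff d) h1
    rw [coeff_scale, coeff_mul_C', coeff_C_mul] at h4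
    rw [h4]
    ring
  have h5 := mul_right_cancel₀ hπ (h3 (permMon π))
  have h6 := h3 0
  rw [← h5, chi_zero, Units.val_one, one_mul, chi_permMon] at h6
  have h7 : (1 - (((∏ i, s i) * ∏ j, t j : Fˣ) : F)) * coeff 0 A.det = 0 := by
    rw [sub_mul, one_mul, ← h6, sub_self]
  rcases mul_eq_zero.mp h7 with h8 | h8
  · exfalso
    apply hχ
    apply Units.ext
    rw [Units.val_one]
    exact (sub_eq_zero.mp h8).symm
  · exact h8

theorem three_close {α β γ : ℂ} (h1 : ‖α - 1‖ ≤ 1 / 4) (h2 : ‖β - 1‖ ≤ 1 / 4)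
    (h3 : ‖γ - 1‖ ≤ 1 / 4) : ‖α * β * γ - 1‖ ≤ 61 / 64 := by
  have hβ : ‖β‖ ≤ 5 / 4 := by
    have h4 : β = (β - 1) + 1 := by ring
    rw [h4]
    refine (norm_add_le _ _).trans ?_
    rw [norm_one]
    linarith
  have hγ : ‖γ‖ ≤ 5 / 4 := by
    have h4 : γ = (γ - 1) + 1 := by ring
    rw [h4]
    refine (norm_add_le _ _).trans ?_
    rw [norm_one]
    linarith
  have h5 : α * β * γ - 1 = (α - 1) * β * γ + (β - 1) * γ + (γ - 1) := by ring
  rw [h5]
  refine (norm_add₃_le).trans ?_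
  rw [norm_mul, norm_mul, norm_mul]
  have h6 : ‖α - 1‖ * ‖β‖ * ‖γ‖ ≤ 1 / 4 * (5 / 4) * (5 / 4) := by gcongr
  have h7 : ‖β - 1‖ * ‖γ‖ ≤ 1 / 4 * (5 / 4) := by gcongr
  linarith

theorem six_close {a b c d e f : ℂ} (h1 : ‖a - 1‖ ≤ 1 / 4) (h2 : ‖b - 1‖ ≤ 1 / 4)
    (h3 : ‖c - 1‖ ≤ 1 / 4) (h4 : ‖d - 1‖ ≤ 1 / 4) (h5 : ‖e - 1‖ ≤ 1 / 4)
    (h6 : ‖f - 1‖ ≤ 1 / 4) : a * b * c + d * e * f ≠ 0 := by
  intro h
  have h7 := three_close h1 h2 h3
  have h8 := three_close h4 h5 h6
  have h9 : (2 : ℂ) = -((a * b * c - 1) + (d * e * f - 1)) := by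
    linear_combination h
  have h10 : ‖(2 : ℂ)‖ ≤ 61 / 64 + 61 / 64 := by
    rw [h9, norm_neg]
    exact (norm_add_le _ _).trans (add_le_add h7 h8)
  rw [Complex.norm_ofNat] at h10
  norm_num at h10

/-- approximate version of the lower bound -/
theorem robust_bound (hm : 3 ≤ m) {N : ℕ}
    (A : Matrix (Fin N) (Fin N) (MvPolynomial (Fin m × Fin m) ℂ))
    (hdeg : ∀ a b, (A a b).totalDegree ≤ 1)
    (hA : ∀ π : Equiv.Perm (Fin m), ‖coeff (permMon π) A.det - 1‖ ≤ 1 / 4)
    (s t : Fin m → ℂˣ) (hg : Generic s t)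
    (h0 : (∏ i, s i) * ∏ j, t j ≠ 1 ∨ constantCoeff A.det = 0)
    (P Q : Matrix (Fin N) (Fin N) ℂ) (hP : IsUnit P) (hQ : IsUnit Q)
    (h : A.map (scale s t) = P.map C * A * Q.map C) : 2 ^ m ≤ N + 1 := by
  refine sym_lower_bound hm A hdeg ?_ ?_ s t hg P Q hP hQ h
  · rcases h0 with h0 | h0
    · refine constant_zero A s t P Q h 1 ?_ h0
      intro h1
      have h2 := hA 1
      rw [h1, zero_sub, norm_neg, norm_one] at h2
      norm_num at h2
    · exact h0
  · intro a b c d e f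
    exact six_close (hA a) (hA b) (hA c) (hA d) (hA e) (hA f)

end Pool.Agent.H735R2.OneSym
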