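import Mathlib
import Pool.Agent.H735R2.OneSym.Inv
import Pool.Agent.H735R2.OneSym.Robust

/-!
One diagonal symmetry and an invertible constant term.
-/

namespace Pool.Agent.H735R2.OneSym

open Finset Module MvPolynomial

variable {m : ℕ} {F : Type*} [Field F]

theorem sym_inv_bound [IsAlgClosed F] (hm : 2 ≤ m) {N : ℕ}
    (A : Matrix (Fin N) (Fin N) (MvPolynomial (Fin m × Fin m) F))
    (hdeg : ∀ a b, (A a b).totalDegree ≤ 1)
    (h0 : constantCoeff A.det ≠ 0)
    (hα : ∀ π : Equiv.Perm (Fin m), coeff (permMon π) A.det ≠ 0)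
    (s t : Fin m → Fˣ) (hg : Generic s t) (P Q : Matrix (Fin N) (Fin N) F)
    (hQ : IsUnit Q)
    (h : A.map (scale s t) = P.map C * A * Q.map C) {k : ℕ} (hk0 : 0 < k) (hkm : k < m) :
    m * m.choose k ≤ N * N - N := by
  classical
  have hfin : finrank F (Fin N → F) = N := by simp
  let D : Matrix (Fin N) (Fin N) F := Q⁻¹
  have hQD : Q * D = 1 := Matrix.mul_nonsing_inv Q ((Matrix.isUnit_iff_isUnit_det Q).mp hQ)
  have hDQ : D * Q = 1 := Matrix.nonsing_inv_mul Q ((Matrix.isUnit_iff_isUnit_det Q).mp hQ)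
  let B0 : Matrix (Fin N) (Fin N) F := coefM 0 A
  have hB0det : B0.det = constantCoeff A.det := by
    rw [RingHom.map_det]
    rfl
  have hB0u : IsUnit B0.det := by
    rw [hB0det]
    exact isUnit_iff_ne_zero.mpr h0
  have hB1 : B0 * B0⁻¹ = 1 := Matrix.mul_nonsing_inv B0 hB0u
  have hB2 : B0⁻¹ * B0 = 1 := Matrix.nonsing_inv_mul B0 hB0u
  have hcoe : ∀ d, P * coefM d A * Q = (chi s t d : F) • coefM d A := by
    intro d
    have h1 : coefM d (A.map (scale s t)) = (chi s t d : F) • coefM d A := by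
      ext a b
      simp only [coefM, Matrix.map_apply, Matrix.smul_apply, coeff_scale, smul_eq_mul]
    rw [h, coefM_mul] at h1
    exact h1
  have hPB : B0⁻¹ * P = D * B0⁻¹ := by
    have h1 : P * B0 * Q = B0 := by
      have h2 := hcoe 0
      rw [chi_zero, Units.val_one, one_smul] at h2
      exact h2
    have h2 : B0 * D = P * B0 := by
      conv_lhs => rw [← h1]
      rw [Matrix.mul_assoc, hQD, Matrix.mul_one]
    calc B0⁻¹ * P = B0⁻¹ * (P * (B0 * B0⁻¹)) := by rw [hB1, Matrix.mul_one]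
      _ = B0⁻¹ * ((P * B0) * B0⁻¹) := by rw [Matrix.mul_assoc P]
      _ = B0⁻¹ * ((B0 * D) * B0⁻¹) := by rw [h2]
      _ = (B0⁻¹ * B0) * (D * B0⁻¹) := by simp only [Matrix.mul_assoc]
      _ = D * B0⁻¹ := by rw [hB2, Matrix.one_mul]
  have hint : ∀ d, (chi s t d : F) • ((B0⁻¹ * coefM d A) * D) = D * (B0⁻¹ * coefM d A) := by
    intro d
    calc (chi s t d : F) • ((B0⁻¹ * coefM d A) * D)
        = B0⁻¹ * ((chi s t d : F) • coefM d A) * D := by
          rw [Matrix.mul_smul, Matrix.smul_mul]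
      _ = B0⁻¹ * (P * coefM d A * Q) * D := by rw [hcoe]
      _ = (B0⁻¹ * P) * coefM d A * (Q * D) := by simp only [Matrix.mul_assoc]
      _ = D * (B0⁻¹ * coefM d A) := by rw [hPB, hQD, Matrix.mul_one, Matrix.mul_assoc]
  obtain ⟨e, μ, he1, he2⟩ := exists_adapted hfin (Matrix.toLin' D)
  have hμ : ∀ b, μ b ≠ 0 := by
    intro b hν
    have hx := he1 b
    rw [hν, End.mem_maxGenEigenspace] at hx
    obtain ⟨k, hk⟩ := hx
    rw [zero_smul, sub_zero] at hk
    apply e.ne_zero b
    have hinj : Function.Injective (Matrix.toLin' D) := by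
      rw [Matrix.toLin'_apply']
      exact (Matrix.mulVec_injective_iff_isUnit).mpr ⟨⟨D, Q, hDQ, hQD⟩, rfl⟩
    have hinjk : Function.Injective ((Matrix.toLin' D) ^ k) := by
      rw [Module.End.coe_pow]
      exact hinj.iterate k
    exact hinjk (by rw [hk, map_zero])
  let R : Matrix (Fin N) (Fin N) F := e.toMatrix (Pi.basisFun F (Fin N))
  let E : Matrix (Fin N) (Fin N) F := (Pi.basisFun F (Fin N)).toMatrix e
  have hRE : R * E = 1 := Basis.toMatrix_mul_toMatrix_flip _ _
  have hdRE : R.det * E.det = 1 := by rw [← Matrix.det_mul, hRE, Matrix.det_one]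
  have hentry : ∀ (X : Matrix (Fin N) (Fin N) F) a b,
      (R * X * E) a b = e.repr (Matrix.toLin' X (e b)) a := by
    intro X a b
    have h1 : ∀ x : Fin N → F, (R.mulVec x) a = e.repr x a := by
      intro x
      have h2 : x = ∑ i, x i • (Pi.basisFun F (Fin N)) i := by
        ext j
        simp [Finset.sum_apply, Pi.single_apply]
      conv_rhs => rw [h2]
      rw [map_sum, Finsupp.finsetSum_apply, Matrix.mulVec, dotProduct]
      refine Finset.sum_congr rfl fun i _ => ?_
      rw [map_smul, Finsupp.smul_apply, smul_eq_mul, mul_comm]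
      rfl
    rw [← h1, Matrix.mul_assoc, Matrix.mul_apply]
    rw [Matrix.mulVec, dotProduct]
    refine Finset.sum_congr rfl fun i _ => ?_
    congr 1
  have hgrade : ∀ d a b, (R * (B0⁻¹ * coefM d A) * E) a b ≠ 0 →
      μ a = (chi s t d : F) * μ b := by
    intro d a b hab
    rw [hentry] at hab
    refine he2 _ _ ?_ a hab
    refine intertwine (Matrix.toLin' D) (Matrix.toLin' D)
      (Matrix.toLin' (B0⁻¹ * coefM d A)) _ _ ?_ (he1 b)
    rw [← Matrix.toLin'_mul, ← Matrix.toLin'_mul, ← hint d, map_smul]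
  let A' : Matrix (Fin N) (Fin N) (MvPolynomial (Fin m × Fin m) F) :=
    (R * B0⁻¹).map C * A * E.map C
  have hcoef' : ∀ d a b, coeff d (A' a b) = (R * (B0⁻¹ * coefM d A) * E) a b := by
    intro d a b
    rw [← Matrix.mul_assoc R, ← coefM_mul]
    rfl
  have hdet' : ∀ d, coeff d A'.det = (B0⁻¹).det * coeff d A.det := by
    intro d
    have h1 : A'.det = C (R * B0⁻¹).det * A.det * C E.det := by
      simp only [A', Matrix.det_mul (_ * A), Matrix.det_mul ((R * B0⁻¹).map C)]
      congr 1
      · congr 1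
        exact (RingHom.map_det C _).symm
      · exact (RingHom.map_det C E).symm
    rw [h1, coeff_mul_C', coeff_C_mul, Matrix.det_mul]
    linear_combination ((B0⁻¹).det * coeff d A.det) * hdRE
  have hB0i : (B0⁻¹).det ≠ 0 := by
    intro h1
    have h2 : B0.det * (B0⁻¹).det = 1 := by rw [← Matrix.det_mul, hB1, Matrix.det_one]
    rw [h1, mul_zero] at h2
    exact zero_ne_one h2
  let A'' : Matrix (Fin N) (Fin N) (MvPowerSeries (Fin m × Fin m) F) :=
    A'.map (MvPolynomial.coeToMvPowerSeries.ringHom)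
  have hc'' : ∀ d a b, MvPowerSeries.coeff d (A'' a b) = coeff d (A' a b) := by
    intro d a b
    simp only [A'', Matrix.map_apply, coeToMvPowerSeries.ringHom_apply, MvPolynomial.coeff_coe]
  have hdet'' : ∀ d, MvPowerSeries.coeff d A''.det = (B0⁻¹).det * coeff d A.det := by
    intro d
    have h1 : A''.det = MvPolynomial.coeToMvPowerSeries.ringHom A'.det :=
      (RingHom.map_det _ _).symm
    rw [h1, coeToMvPowerSeries.ringHom_apply, MvPolynomial.coeff_coe, hdet']
  refine graded_invertible hm hg.sep A''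
    (fun a => Additive.ofMul (Units.mk0 (μ a) (hμ a))) ?_ ?_ ?_ ?_ hk0 hkm
  · intro a b hab
    rw [hc'', hcoef']
    have h1 : B0⁻¹ * coefM 0 A = 1 := hB2
    rw [h1, Matrix.mul_one, hRE, Matrix.one_apply_ne hab]
  · intro a b d hd
    rw [hc'', hcoef'] at hd
    have h3 : ∃ i j, coeff d (A i j) ≠ 0 := by
      by_contra hcon
      push Not at hcon
      apply hd
      have : coefM d A = 0 := by
        ext i j
        exact hcon i j
      rw [this]
      simp
    obtain ⟨i, j, hij⟩ := h3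
    exact (MvPolynomial.le_totalDegree (mem_support_iff.mpr hij)).trans (hdeg i j)
  · intro a b d hd
    rw [hc'', hcoef'] at hd
    have h1 := hgrade d a b hd
    have h2 : Units.mk0 (μ a) (hμ a) = chi s t d * Units.mk0 (μ b) (hμ b) := by
      ext
      simpa using h1
    rw [h2, ofMul_mul, chi, ofMul_toMul]
  · intro π
    rw [hdet'']
    exact mul_ne_zero hB0i (hα π)

end Pool.Agent.H735R2.OneSym
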