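import Mathlib
import Pool.Agent.H735R2.OneSym.SymInv
import Pool.Agent.H735R2.OneSym.Ext

/-!
The lower bounds for approximate representations of the permanent.
-/

namespace Pool.Agent.H735R2.OneSym

open Finset MvPolynomial

variable {m : ℕ} {F : Type*} [Field F]

theorem two_pow_le_mul_choose (hm : 2 ≤ m) : 2 ^ m ≤ m * m.choose (m / 2) := by
  have h1 := sum_choose_Ioo (m := m) (by omega)
  have h2 : ∑ t ∈ Finset.Ioo 0 m, m.choose t ≤ ∑ _t ∈ Finset.Ioo 0 m, m.choose (m / 2) :=
    Finset.sum_le_sum fun t _ => Nat.choose_le_middle t m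
  rw [Finset.sum_const, Nat.card_Ioo, smul_eq_mul] at h2
  have h3 : m.choose 1 ≤ m.choose (m / 2) := Nat.choose_le_middle 1 m
  rw [Nat.choose_one_right] at h3
  obtain ⟨n, rfl⟩ : ∃ n, m = n + 2 := ⟨m - 2, by omega⟩
  have h4 : n + 2 - 0 - 1 = n + 1 := by omega
  rw [h4] at h2
  have h5 : (n + 2) * (n + 2).choose ((n + 2) / 2) =
      (n + 1) * (n + 2).choose ((n + 2) / 2) + (n + 2).choose ((n + 2) / 2) := by ring
  rw [h5]
  omega

theorem closed_bound [IsAlgClosed F] (hm : 3 ≤ m) {N : ℕ}
    (A : Matrix (Fin N) (Fin N) (MvPolynomial (Fin m × Fin m) F))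
    (hdeg : ∀ a b, (A a b).totalDegree ≤ 1)
    (h6 : ∀ a b c d e f : Equiv.Perm (Fin m),
      coeff (permMon a) A.det * coeff (permMon b) A.det * coeff (permMon c) A.det +
      coeff (permMon d) A.det * coeff (permMon e) A.det * coeff (permMon f) A.det ≠ 0)
    (s t : Fin m → Fˣ) (hg : Generic s t) (P Q : Matrix (Fin N) (Fin N) F)
    (hP : IsUnit P) (hQ : IsUnit Q)
    (h : A.map (scale s t) = P.map C * A * Q.map C) :
    2 ^ m ≤ N ^ 2 ∧ (((∏ i, s i) * ∏ j, t j ≠ 1 ∨ constantCoeff A.det = 0) → 2 ^ m ≤ N + 1) := by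
  have hα : ∀ π : Equiv.Perm (Fin m), coeff (permMon π) A.det ≠ 0 := by
    intro π h1
    exact h6 π π π π π π (by rw [h1]; ring)
  have key : constantCoeff A.det = 0 → 2 ^ m ≤ N + 1 := fun h0 =>
    sym_lower_bound hm A hdeg h0 h6 s t hg P Q hP hQ h
  have key2 : ((∏ i, s i) * ∏ j, t j ≠ 1 ∨ constantCoeff A.det = 0) →
      constantCoeff A.det = 0 := by
    rintro (h0 | h0)
    · exact constant_zero A s t P Q h 1 (hα 1) h0
    · exact h0
  refine ⟨?_, fun h0 => key (key2 h0)⟩
  by_cases h0 : constantCoeff A.det = 0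
  · have h1 := key h0
    have h2 : 2 ^ 3 ≤ 2 ^ m := Nat.pow_le_pow_right (by norm_num) hm
    have h3 : 7 ≤ N := by omega
    nlinarith
  · have h1 := sym_inv_bound (by omega) A hdeg h0 hα s t hg P Q hQ h (k := m / 2) (by omega)
      (by omega)
    have h2 := two_pow_le_mul_choose (m := m) (by omega)
    have h3 : N * N - N ≤ N ^ 2 := by
      rw [pow_two]
      exact Nat.sub_le _ _
    omega

/-- the bounds over an arbitrary field -/
theorem field_bound (hm : 3 ≤ m) {N : ℕ}
    (A : Matrix (Fin N) (Fin N) (MvPolynomial (Fin m × Fin m) F))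
    (hdeg : ∀ a b, (A a b).totalDegree ≤ 1)
    (h6 : ∀ a b c d e f : Equiv.Perm (Fin m),
      coeff (permMon a) A.det * coeff (permMon b) A.det * coeff (permMon c) A.det +
      coeff (permMon d) A.det * coeff (permMon e) A.det * coeff (permMon f) A.det ≠ 0)
    (s t : Fin m → Fˣ) (hg : Generic s t) (P Q : Matrix (Fin N) (Fin N) F)
    (hP : IsUnit P) (hQ : IsUnit Q)
    (h : A.map (scale s t) = P.map C * A * Q.map C) :
    2 ^ m ≤ N ^ 2 ∧ (((∏ i, s i) * ∏ j, t j ≠ 1 ∨ constantCoeff A.det = 0) → 2 ^ m ≤ N + 1) := by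
  classical
  let K := AlgebraicClosure F
  let f : F →+* K := algebraMap F K
  have hdet : (A.map (MvPolynomial.map f)).det = MvPolynomial.map f A.det := by
    rw [RingHom.map_det]
    rfl
  have hmain := closed_bound (F := K) hm (A.map (MvPolynomial.map f)) (fun a b =>
    totalDegree_map_le_one f (hdeg a b)) (by
      intro a b c d e g
      rw [hdet]
      simp only [coeff_map]
      intro hcon
      apply h6 a b c d e g
      apply f.injective
      rw [map_zero, ← hcon, map_add, map_mul, map_mul, map_mul, map_mul])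
    (fun i => Units.map (f : F →* K) (s i)) (fun j => Units.map (f : F →* K) (t j))
    (hg.map f) (P.map f) (Q.map f) ((RingHom.mapMatrix f).isUnit_map hP)
    ((RingHom.mapMatrix f).isUnit_map hQ) (by
      have h1 : (A.map (MvPolynomial.map f)).map (scale (fun i => Units.map (f : F →* K) (s i))
          (fun j => Units.map (f : F →* K) (t j))) =
          (A.map (scale s t)).map (MvPolynomial.map f) := by
        ext1 a b
        simp only [Matrix.map_apply]
        exact scale_map f s t (A a b)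
      rw [h1, h, Matrix.map_mul, Matrix.map_mul]
      congr 1
      · congr 1
        ext1 a b
        simp only [Matrix.map_apply]
        rw [map_C]
      · ext1 a b
        simp only [Matrix.map_apply]
        rw [map_C])
  refine ⟨hmain.1, fun h0 => hmain.2 ?_⟩
  rcases h0 with h0 | h0
  · left
    rw [← map_prod, ← map_prod, ← map_mul]
    intro h1
    apply h0
    apply Units.map_injective (f := (f : F →* K)) f.injective
    rw [h1, map_one]
  · right
    rw [hdet, constantCoeff_map, h0, map_zero]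

/-- coefficients which become `1` under a place -/
theorem place_six {K k : Type*} [Field K] [Field k] (R : Subring K) (φ : R →+* k)
    (h2 : (2 : k) ≠ 0) {a b c d e f : K} (ha : ∃ x : R, (x : K) = a ∧ φ x = 1)
    (hb : ∃ x : R, (x : K) = b ∧ φ x = 1) (hc : ∃ x : R, (x : K) = c ∧ φ x = 1)
    (hd : ∃ x : R, (x : K) = d ∧ φ x = 1) (he : ∃ x : R, (x : K) = e ∧ φ x = 1)
    (hf : ∃ x : R, (x : K) = f ∧ φ x = 1) : a * b * c + d * e * f ≠ 0 := by
  obtain ⟨a', rfl, ha⟩ := ha
  obtain ⟨b', rfl, hb⟩ := hb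
  obtain ⟨c', rfl, hc⟩ := hc
  obtain ⟨d', rfl, hd⟩ := hd
  obtain ⟨e', rfl, he⟩ := he
  obtain ⟨f', rfl, hf⟩ := hf
  intro h
  have h1 : a' * b' * c' + d' * e' * f' = 0 := by
    apply Subtype.ext
    push_cast
    exact h
  have h3 := congrArg φ h1
  rw [map_zero, map_add, map_mul, map_mul, map_mul, map_mul, ha, hb, hc, hd, he, hf] at h3
  apply h2
  rw [← h3]
  norm_num

end Pool.Agent.H735R2.OneSym
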