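import Mathlib
import Pool.Agent.H735R2.OneSym.Sym

/-!
Existence of generic symmetries of the permanent.
-/

namespace Pool.Agent.H735R2.OneSym

open Finset

variable {m : ℕ}

/-- encoding of a pair of sets -/
def enc (S T : Finset (Fin m)) : Finset ℕ :=
  S.image (fun i => i.1) ∪ (T.filter fun j => j.1 ≠ m - 1).image (fun j => m + j.1)

theorem mem_enc_left {S T : Finset (Fin m)} (i : Fin m) : i.1 ∈ enc S T ↔ i ∈ S := by
  rw [enc, mem_union, mem_image, mem_image]
  constructor
  · rintro (⟨a, ha, h⟩ | ⟨a, ha, h⟩)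
    · rwa [← Fin.ext h]
    · have := i.2
      omega
  · intro h
    exact Or.inl ⟨i, h, rfl⟩

theorem mem_enc_right {S T : Finset (Fin m)} (j : Fin m) (hj : j.1 ≠ m - 1) :
    m + j.1 ∈ enc S T ↔ j ∈ T := by
  rw [enc, mem_union, mem_image, mem_image]
  constructor
  · rintro (⟨a, ha, h⟩ | ⟨a, ha, h⟩)
    · have := a.2
      omega
    · have h2 : a = j := Fin.ext (by omega)
      rw [← h2]
      exact (mem_filter.mp ha).1
  · intro h
    exact Or.inr ⟨j, mem_filter.mpr ⟨h, hj⟩, rfl⟩

theorem enc_subset (S T : Finset (Fin m)) : enc S T ⊆ Finset.range (2 * m - 1) := by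
  intro k hk
  rw [enc, mem_union, mem_image, mem_image] at hk
  rw [mem_range]
  rcases hk with ⟨a, _, h⟩ | ⟨a, ha, h⟩
  · have := a.2
    omega
  · have := a.2
    have := (mem_filter.mp ha).2
    omega

theorem sum_enc (S T : Finset (Fin m)) : ∑ k ∈ enc S T, 2 ^ k =
    ∑ i ∈ S, 2 ^ i.1 + ∑ j ∈ T.filter (fun j => j.1 ≠ m - 1), 2 ^ (m + j.1) := by
  rw [enc, Finset.sum_union]
  · rw [Finset.sum_image, Finset.sum_image]
    · intro a _ b _ h
      exact Fin.ext (by simpa using h)
    · intro a _ b _ h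
      exact Fin.ext h
  · rw [Finset.disjoint_left]
    intro k h1 h2
    rw [mem_image] at h1 h2
    obtain ⟨a, _, ha⟩ := h1
    obtain ⟨b, _, hb⟩ := h2
    have := a.2
    omega

theorem enc_injective {S T S' T' : Finset (Fin m)}
    (h : ∑ k ∈ enc S T, 2 ^ k = ∑ k ∈ enc S' T', 2 ^ k) : enc S T = enc S' T' :=
  Finset.geomSum_injective (n := 2) le_rfl h

/-- row exponents -/
def aE (i : Fin m) : ℤ := 2 ^ i.1

/-- column exponents -/
def bE (j : Fin m) : ℤ :=
  if j.1 ≠ m - 1 then 2 ^ (m + j.1) else -((∑ k ∈ Finset.range (2 * m - 1), 2 ^ k : ℕ) : ℤ)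

theorem value (S T : Finset (Fin m)) : ∑ i ∈ S, aE i + ∑ j ∈ T, bE j =
    ((∑ k ∈ enc S T, 2 ^ k : ℕ) : ℤ) -
      (if ∃ j ∈ T, j.1 = m - 1 then ((∑ k ∈ Finset.range (2 * m - 1), 2 ^ k : ℕ) : ℤ) else 0) := by
  classical
  rw [sum_enc, ← Finset.sum_filter_add_sum_filter_not T (fun j => j.1 ≠ m - 1)]
  have h1 : ∑ j ∈ T.filter (fun j => j.1 ≠ m - 1), (bE j) =
      ∑ j ∈ T.filter (fun j => j.1 ≠ m - 1), 2 ^ (m + j.1) := by
    refine Finset.sum_congr rfl fun j hj => ?_
    rw [bE, if_pos (mem_filter.mp hj).2]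
  have h2 : ∑ j ∈ T.filter (fun j => ¬ j.1 ≠ m - 1), (bE j) =
      -(if ∃ j ∈ T, j.1 = m - 1 then ((∑ k ∈ Finset.range (2 * m - 1), 2 ^ k : ℕ) : ℤ) else 0) := by
    split_ifs with h
    · obtain ⟨j0, h3, h4⟩ := h
      have h5 : T.filter (fun j => ¬ j.1 ≠ m - 1) = {j0} := by
        ext j
        rw [mem_filter, mem_singleton]
        constructor
        · rintro ⟨_, h6⟩
          exact Fin.ext (by omega)
        · rintro rfl
          exact ⟨h3, by omega⟩
      rw [h5, Finset.sum_singleton, bE, if_neg (by omega)]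
    · rw [neg_zero]
      refine Finset.sum_eq_zero fun j hj => ?_
      exfalso
      rw [mem_filter] at hj
      exact h ⟨j, hj.1, by omega⟩
  rw [h1, h2]
  simp only [aE]
  push_cast
  ring

theorem exp_generic (hm : 1 ≤ m) {S T S' T' : Finset (Fin m)}
    (h : ∑ i ∈ S, aE i + ∑ j ∈ T, bE j = ∑ i ∈ S', aE i + ∑ j ∈ T', bE j) :
    (S = S' ∧ T = T') ∨ (S = ∅ ∧ S' = univ) ∨ (S = univ ∧ S' = ∅) := by
  classical
  have key : ∀ {S T S' T' : Finset (Fin m)},
      ∑ k ∈ enc S T, 2 ^ k + ∑ k ∈ Finset.range (2 * m - 1), 2 ^ k = ∑ k ∈ enc S' T', 2 ^ k →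
      S = ∅ ∧ S' = univ := by
    intro S T S' T' h
    have h1 : ∑ k ∈ enc S' T', 2 ^ k ≤ ∑ k ∈ Finset.range (2 * m - 1), 2 ^ k :=
      Finset.sum_le_sum_of_subset (enc_subset S' T')
    have h2 : ∑ k ∈ enc S T, 2 ^ k = 0 := by omega
    have h3 : ∑ k ∈ enc S' T', 2 ^ k = ∑ k ∈ Finset.range (2 * m - 1), 2 ^ k := by omega
    constructor
    · rw [Finset.eq_empty_iff_forall_notMem]
      intro i hi
      have h4 := (mem_enc_left (T := T) i).mpr hi
      have h5 := Finset.sum_eq_zero_iff.mp h2 _ h4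
      exact absurd h5 (by positivity)
    · have h4 : enc S' T' = Finset.range (2 * m - 1) :=
        Finset.geomSum_injective (n := 2) le_rfl h3
      rw [Finset.eq_univ_iff_forall]
      intro i
      rw [← mem_enc_left (T := T') i, h4, mem_range]
      have := i.2
      omega
  have inj : ∀ {S T S' T' : Finset (Fin m)}, enc S T = enc S' T' →
      ((∃ j ∈ T, j.1 = m - 1) ↔ ∃ j ∈ T', j.1 = m - 1) → S = S' ∧ T = T' := by
    intro S T S' T' h hl
    constructor
    · ext i
      rw [← mem_enc_left (T := T) i, h, mem_enc_left]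
    · ext j
      by_cases hj : j.1 = m - 1
      · constructor
        · intro h1
          obtain ⟨j', h2, h3⟩ := hl.mp ⟨j, h1, hj⟩
          have h4 : j' = j := Fin.ext (by omega)
          rwa [← h4]
        · intro h1
          obtain ⟨j', h2, h3⟩ := hl.mpr ⟨j, h1, hj⟩
          have h4 : j' = j := Fin.ext (by omega)
          rwa [← h4]
      · rw [← mem_enc_right (S := S) j hj, h, mem_enc_right j hj]
  rw [value, value] at h
  by_cases hT : ∃ j ∈ T, j.1 = m - 1
  · by_cases hT' : ∃ j ∈ T', j.1 = m - 1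
    · rw [if_pos hT, if_pos hT'] at h
      left
      refine inj (enc_injective ?_) (iff_of_true hT hT')
      have := add_right_cancel (b := -((∑ k ∈ Finset.range (2 * m - 1), 2 ^ k : ℕ) : ℤ))
        (a := ((∑ k ∈ enc S T, 2 ^ k : ℕ) : ℤ)) (c := ((∑ k ∈ enc S' T', 2 ^ k : ℕ) : ℤ))
        (by rw [← sub_eq_add_neg, ← sub_eq_add_neg]; exact h)
      exact_mod_cast this
    · rw [if_pos hT, if_neg hT', sub_zero] at h
      right; right
      have h1 : ∑ k ∈ enc S' T', 2 ^ k + ∑ k ∈ Finset.range (2 * m - 1), 2 ^ k =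
          ∑ k ∈ enc S T, 2 ^ k := by
        have : ((∑ k ∈ enc S' T', 2 ^ k : ℕ) : ℤ) +
            ((∑ k ∈ Finset.range (2 * m - 1), 2 ^ k : ℕ) : ℤ) =
            ((∑ k ∈ enc S T, 2 ^ k : ℕ) : ℤ) := by linarith
        exact_mod_cast this
      exact (key h1).symm
  · by_cases hT' : ∃ j ∈ T', j.1 = m - 1
    · rw [if_neg hT, if_pos hT', sub_zero] at h
      right; left
      have h1 : ∑ k ∈ enc S T, 2 ^ k + ∑ k ∈ Finset.range (2 * m - 1), 2 ^ k =
          ∑ k ∈ enc S' T', 2 ^ k := by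
        have : ((∑ k ∈ enc S T, 2 ^ k : ℕ) : ℤ) +
            ((∑ k ∈ Finset.range (2 * m - 1), 2 ^ k : ℕ) : ℤ) =
            ((∑ k ∈ enc S' T', 2 ^ k : ℕ) : ℤ) := by linarith
        exact_mod_cast this
      exact key h1
    · rw [if_neg hT, if_neg hT', sub_zero, sub_zero] at h
      left
      refine inj (enc_injective ?_) (iff_of_false hT hT')
      exact_mod_cast h

/-- there are generic symmetries of the permanent -/
theorem exists_generic (m : ℕ) :
    ∃ s t : Fin m → ℂˣ, Generic s t ∧ (∏ i, s i) * ∏ j, t j = 1 := by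
  classical
  rcases Nat.eq_zero_or_pos m with rfl | hm
  · refine ⟨fun i => 1, fun j => 1, ?_, by simp⟩
    intro S T S' T' _ _ _
    left
    exact ⟨Subsingleton.elim _ _, Subsingleton.elim _ _⟩
  · let u : ℂˣ := Units.mk0 2 two_ne_zero
    have hu : Function.Injective (fun n : ℤ => u ^ n) := by
      intro a b hab
      have h1 : ‖((u ^ a : ℂˣ) : ℂ)‖ = ‖((u ^ b : ℂˣ) : ℂ)‖ := by
        simp only at hab
        rw [hab]
      rw [Units.val_zpow_eq_zpow_val, Units.val_zpow_eq_zpow_val, norm_zpow, norm_zpow,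
        Units.val_mk0, Complex.norm_ofNat] at h1
      exact zpow_right_injective₀ (by norm_num) (by norm_num) h1
    have hprod : ∀ (S : Finset (Fin m)) (e : Fin m → ℤ), ∏ i ∈ S, u ^ (e i) = u ^ ∑ i ∈ S, e i := by
      intro S e
      induction S using Finset.induction_on with
      | empty => simp
      | insert a S ha ih => rw [Finset.prod_insert ha, Finset.sum_insert ha, zpow_add, ih]
    refine ⟨fun i => u ^ (aE i), fun j => u ^ (bE j), ?_, ?_⟩
    · intro S T S' T' _ _ h
      rw [hprod, hprod, hprod, hprod, ← zpow_add, ← zpow_add] at h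
      exact exp_generic hm (hu h)
    · rw [hprod, hprod, ← zpow_add, value, if_pos]
      · have h1 : enc (univ : Finset (Fin m)) univ = Finset.range (2 * m - 1) := by
          apply Finset.Subset.antisymm (enc_subset _ _)
          intro k hk
          rw [mem_range] at hk
          by_cases h2 : k < m
          · exact (mem_enc_left (T := univ) (⟨k, h2⟩ : Fin m)).mpr (mem_univ _)
          · have h3 : k = m + (⟨k - m, by omega⟩ : Fin m).1 := by
              simp only
              omega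
            rw [h3]
            refine (mem_enc_right _ ?_).mpr (mem_univ _)
            simp only
            omega
        rw [h1, sub_self, zpow_zero]
      · exact ⟨⟨m - 1, by omega⟩, mem_univ _, rfl⟩

end Pool.Agent.H735R2.OneSym
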