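import Mathlib
import Pool.Agent.H735R2.OneSym.Gen
import Pool.Agent.H735R2.OneSym.Ext

/-!
All row scalings and the column scalings which are constant on `r` classes of columns.
-/

namespace Pool.Agent.H735R2.OneSym

open Finset MvPolynomial

variable {m r : ℕ}

theorem classes_bound (hr : 3 ≤ r) {N : ℕ}
    (A : Matrix (Fin N) (Fin N) (MvPolynomial (Fin m × Fin m) ℂ))
    (hdeg : ∀ a b, (A a b).totalDegree ≤ 1)
    (hA : A.det = (Matrix.of (fun i j : Fin m =>
      (X (i, j) : MvPolynomial (Fin m × Fin m) ℂ))).permanent)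
    (κ : Fin m → Fin r) (hκ : Function.Surjective κ)
    (h : ∀ (s : Fin m → ℂˣ) (τ : Fin r → ℂˣ), (∏ i, s i) * ∏ j, τ (κ j) = 1 →
      ∃ P Q : Matrix (Fin N) (Fin N) ℂ, IsUnit P ∧ IsUnit Q ∧
        A.map (scale s fun j => τ (κ j)) = P.map C * A * Q.map C) : 2 ^ r ≤ N + 1 := by
  classical
  obtain ⟨c, hc⟩ := hκ.hasRightInverse
  let ρ : Fin r ↪ Fin m := ⟨c, hc.injective⟩
  have hρ : ∀ a, κ (ρ a) = a := hc
  obtain ⟨s', τ, hg, h1⟩ := exists_generic r
  let s : Fin m → ℂˣ := fun i => if i ∈ Set.range ρ then s' (κ i) else (τ (κ i))⁻¹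
  have hs1 : ∀ a, s (ρ a) = s' a := by
    intro a
    simp only [s, if_pos (Set.mem_range_self a), hρ]
  have hs2 : ∀ i, i ∉ Set.range ρ → s i * τ (κ i) = 1 := by
    intro i hi
    simp only [s, if_neg hi, inv_mul_cancel]
  have h2 : (∏ i, s i) * ∏ j, τ (κ j) = 1 := by
    rw [← Finset.prod_mul_distrib, prod_split ρ _ hs2]
    simp only [hs1, hρ]
    rw [Finset.prod_mul_distrib, h1]
  obtain ⟨P, Q, hP, hQ, h3⟩ := h s τ h2
  refine restr_bound' hr A hdeg (fun _ => 1) ?_ ?_ s (fun j => τ (κ j)) ρ 1 hs2 ?_ P Q hP hQ h3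
  · rw [hA, permanent_eq']
  · intro a b c d e f
    norm_num
  · have e1 : (fun a => s (ρ a)) = s' := funext hs1
    have e2 : (fun a => τ (κ ((1 : Equiv.Perm (Fin m)) (ρ a)))) = τ := by
      funext a
      rw [Equiv.Perm.one_apply, hρ]
    rw [e1, e2]
    exact hg

end Pool.Agent.H735R2.OneSym
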