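import Mathlib

/-!
Grenet's determinantal representation of the permanent: the determinant computation.
-/

namespace Pool.Agent.H735R2.OneSym

open Finset MvPolynomial

variable {m : ℕ} {R : Type*} [CommRing R]

/-- indicator exponent of a set -/
noncomputable def ind (S : Finset (Fin m)) : Fin m →₀ ℕ := ∑ j ∈ S, Finsupp.single j 1

theorem ind_apply (S : Finset (Fin m)) (j : Fin m) : ind S j = if j ∈ S then 1 else 0 := by
  classical
  rw [ind, Finsupp.finsetSum_apply]
  simp only [Finsupp.single_apply]
  rw [Finset.sum_ite_eq']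

theorem ind_sub {T : Finset (Fin m)} {j : Fin m} :
    ind T - Finsupp.single j 1 = ind (T.erase j) := by
  classical
  ext i
  rw [Finsupp.tsub_apply, ind_apply, ind_apply, Finsupp.single_apply]
  by_cases h : i = j
  · subst h
    simp
    split_ifs <;> rfl
  · have h' : ¬ j = i := fun hh => h hh.symm
    simp [h, h']

/-- a row as a linear form -/
noncomputable def lin (x : ℕ → Fin m → R) (i : ℕ) : MvPolynomial (Fin m) R :=
  ∑ j, C (x i j) * X j

/-- sum over all bijections from `{0, …, |S|-1}` to `S` -/
noncomputable def gg (x : ℕ → Fin m → R) (S : Finset (Fin m)) : R :=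
  coeff (ind S) (∏ i ∈ Finset.range S.card, lin x i)

theorem gg_empty (x : ℕ → Fin m → R) : gg x ∅ = 1 := by
  have : ind (∅ : Finset (Fin m)) = 0 := by simp [ind]
  rw [gg, this]
  simp

theorem gg_rec (x : ℕ → Fin m → R) (T : Finset (Fin m)) (hT : T ≠ ∅) :
    gg x T = ∑ j ∈ T, gg x (T.erase j) * x (T.card - 1) j := by
  classical
  obtain ⟨n, hn⟩ : ∃ n, T.card = n + 1 := by
    have := Finset.card_pos.mpr (Finset.nonempty_iff_ne_empty.mpr hT)
    exact ⟨T.card - 1, by omega⟩
  rw [gg, hn, Finset.prod_range_succ, lin, Finset.mul_sum, coeff_sum]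
  have h1 : ∀ j : Fin m, coeff (ind T) ((∏ i ∈ Finset.range n, lin x i) * (C (x n j) * X j)) =
      if j ∈ T then gg x (T.erase j) * x n j else 0 := by
    intro j
    rw [← mul_assoc, coeff_mul_X']
    have h2 : j ∈ (ind T).support ↔ j ∈ T := by
      rw [Finsupp.mem_support_iff, ind_apply]
      split_ifs with h <;> simp [h]
    simp only [h2]
    split_ifs with h
    · rw [ind_sub, mul_comm, coeff_C_mul, gg, Finset.card_erase_of_mem h, hn,
        Nat.add_sub_cancel, mul_comm]
    · rfl
  rw [Finset.sum_congr rfl fun j _ => h1 j, Finset.sum_ite_mem, Finset.univ_inter]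
  simp

/-- extension of a matrix by zero rows -/
noncomputable def extz (x : Fin m → Fin m → R) (i : ℕ) (j : Fin m) : R :=
  if h : i < m then x ⟨i, h⟩ j else 0

theorem gg_univ (x : Fin m → Fin m → R) :
    gg (extz x) univ = ∑ σ : Equiv.Perm (Fin m), ∏ i, x i (σ i) := by
  classical
  rw [gg, Finset.card_univ, Fintype.card_fin, ← Fin.prod_univ_eq_prod_range]
  have h1 : ∀ i : Fin m, lin (extz x) i = ∑ j ∈ (univ : Finset (Fin m)), C (x i j) * X j := by
    intro i
    rw [lin]
    refine Finset.sum_congr rfl fun j _ => ?_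
    rw [extz, dif_pos i.2]
  rw [Finset.prod_congr rfl fun i _ => h1 i, Finset.prod_univ_sum, coeff_sum]
  have h2 : ∀ f : Fin m → Fin m, coeff (ind univ) (∏ i, (C (x i (f i)) * X (f i)) :
      MvPolynomial (Fin m) R) = if Function.Bijective f then ∏ i, x i (f i) else 0 := by
    intro f
    rw [Finset.prod_mul_distrib, ← map_prod, coeff_C_mul]
    have h3 : (∏ i, X (f i) : MvPolynomial (Fin m) R) =
        monomial (∑ i, Finsupp.single (f i) 1) 1 := by
      rw [monomial_sum_index, C_1, one_mul]
      rfl
    rw [h3, coeff_monomial]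
    have h4 : (∑ i, Finsupp.single (f i) 1 : Fin m →₀ ℕ) = ind univ ↔ Function.Bijective f := by
      constructor
      · intro h
        rw [← Finite.surjective_iff_bijective]
        intro j
        have h5 := DFunLike.congr_fun h j
        rw [ind_apply, if_pos (mem_univ _), Finsupp.finsetSum_apply] at h5
        by_contra hcon
        push Not at hcon
        rw [Finset.sum_eq_zero] at h5
        · omega
        · intro i _
          rw [Finsupp.single_apply, if_neg (hcon i)]
      · intro h
        rw [ind]
        exact (Equiv.ofBijective f h).sum_comp (fun j => (Finsupp.single j 1 : Fin m →₀ ℕ))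
    simp only [h4]
    split_ifs <;> simp
  simp only [h2, Fintype.piFinset_univ]
  rw [← Finset.sum_filter]
  refine (Finset.sum_bij' (fun (σ : Equiv.Perm (Fin m)) _ => (σ : Fin m → Fin m))
    (fun f hf => Equiv.ofBijective f (mem_filter.mp hf).2) ?_ ?_ ?_ ?_ ?_).symm
  · intro σ _
    exact mem_filter.mpr ⟨mem_univ _, σ.bijective⟩
  · intro f hf
    exact mem_univ _
  · intro σ _
    ext i
    rfl
  · intro f hf
    rfl
  · intro σ _
    rfl

/-- index set of Grenet's matrix -/
abbrev J (m : ℕ) : Type := {S : Finset (Fin m) // S ≠ univ}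

theorem card_J : Fintype.card (J m) = 2 ^ m - 1 := by
  classical
  rw [Fintype.card_subtype_compl]
  simp

/-- the arrows of the Boolean lattice -/
noncomputable def arrow (x : Fin m → Fin m → R) (S T : Finset (Fin m)) : R :=
  ∑ j, if j ∉ S ∧ insert j S = T then extz x S.card j else 0

theorem arrow_eq_zero (x : Fin m → Fin m → R) {S T : Finset (Fin m)} (h : T.card ≠ S.card + 1) :
    arrow x S T = 0 := by
  classical
  rw [arrow]
  refine Finset.sum_eq_zero fun j _ => if_neg ?_
  rintro ⟨h1, h2⟩
  apply h
  rw [← h2, Finset.card_insert_of_notMem h1]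

theorem sum_gg_arrow (x : Fin m → Fin m → R) (T : Finset (Fin m)) (hT : T ≠ ∅) :
    ∑ S : J m, gg (extz x) S.1 * arrow x S.1 T = gg (extz x) T := by
  classical
  have h1 : ∑ S : J m, gg (extz x) S.1 * arrow x S.1 T =
      ∑ S : Finset (Fin m), gg (extz x) S * arrow x S T := by
    rw [← Finset.sum_subtype (univ.erase univ) (fun S => by simp)
      (fun S => gg (extz x) S * arrow x S T)]
    rw [← Finset.add_sum_erase (s := univ) (a := (univ : Finset (Fin m))) _ (mem_univ _)]
    rw [arrow_eq_zero x (S := univ), mul_zero, zero_add]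
    have := Finset.card_le_univ T
    rw [Finset.card_univ] at *
    omega
  rw [h1, gg_rec _ T hT]
  simp only [arrow, Finset.mul_sum]
  rw [Finset.sum_comm]
  rw [← Finset.sum_subset (Finset.subset_univ T)]
  · refine Finset.sum_congr rfl fun j hj => ?_
    rw [Finset.sum_eq_single (T.erase j)]
    · rw [if_pos ⟨Finset.notMem_erase j T, Finset.insert_erase hj⟩, Finset.card_erase_of_mem hj]
    · intro S _ hS
      rw [if_neg, mul_zero]
      rintro ⟨h2, h3⟩
      apply hS
      rw [← h3, Finset.erase_insert h2]
    · intro h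
      exact absurd (mem_univ _) h
  · intro j _ hj
    refine Finset.sum_eq_zero fun S _ => ?_
    rw [if_neg, mul_zero]
    rintro ⟨h2, h3⟩
    apply hj
    rw [← h3]
    exact Finset.mem_insert_self j S

/-- Grenet's matrix up to sign -/
noncomputable def HH (x : Fin m → Fin m → R) : Matrix (J m) (J m) R := fun S T =>
  (if S = T ∧ T.1 ≠ ∅ then 1 else 0) - arrow x S.1 T.1 - (if T.1 = ∅ then arrow x S.1 univ else 0)

theorem det_HH (hm : 1 ≤ m) (x : Fin m → Fin m → R) :
    (HH x).det = - ∑ σ : Equiv.Perm (Fin m), ∏ i, x i (σ i) := by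
  classical
  have : Nonempty (Fin m) := ⟨⟨0, by omega⟩⟩
  have huniv : (univ : Finset (Fin m)) ≠ ∅ := Finset.univ_nonempty.ne_empty
  let o : J m := ⟨∅, huniv.symm⟩
  let p : R := ∑ σ : Equiv.Perm (Fin m), ∏ i, x i (σ i)
  -- the combination of rows
  have hrow : ∑ S : J m, gg (extz x) S.1 • HH x S = fun T => if T = o then -p else 0 := by
    funext T
    rw [Finset.sum_apply]
    simp only [Pi.smul_apply, smul_eq_mul, HH, mul_sub, Finset.sum_sub_distrib]
    by_cases hT : T.1 = ∅
    · have hTo : T = o := Subtype.ext hT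
      rw [if_pos hTo]
      have h1 : ∑ S : J m, gg (extz x) S.1 * (if S = T ∧ T.1 ≠ ∅ then 1 else 0) = 0 := by
        refine Finset.sum_eq_zero fun S _ => ?_
        rw [if_neg (fun h => h.2 hT), mul_zero]
      have h2 : ∑ S : J m, gg (extz x) S.1 * arrow x S.1 T.1 = 0 := by
        refine Finset.sum_eq_zero fun S _ => ?_
        rw [arrow_eq_zero, mul_zero]
        rw [hT, Finset.card_empty]
        omega
      have h3 : ∑ S : J m, gg (extz x) S.1 * (if T.1 = ∅ then arrow x S.1 univ else 0) = p := by
        simp only [if_pos hT]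
        rw [sum_gg_arrow x univ huniv, gg_univ]
      rw [h1, h2, h3]
      ring
    · have hTo : T ≠ o := fun h => hT (by rw [h])
      rw [if_neg hTo]
      have h1 : ∑ S : J m, gg (extz x) S.1 * (if S = T ∧ T.1 ≠ ∅ then 1 else 0) =
          gg (extz x) T.1 := by
        rw [Finset.sum_eq_single T]
        · rw [if_pos ⟨rfl, hT⟩, mul_one]
        · intro S _ hS
          rw [if_neg (fun h => hS h.1), mul_zero]
        · intro h
          exact absurd (mem_univ _) h
      have h2 := sum_gg_arrow x T.1 hT
      have h3 : ∑ S : J m, gg (extz x) S.1 * (if T.1 = ∅ then arrow x S.1 univ else 0) = 0 := by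
        refine Finset.sum_eq_zero fun S _ => ?_
        rw [if_neg hT, mul_zero]
      rw [h1, h2, h3]
      ring
  have hdet := Matrix.det_updateRow_sum (HH x) o (fun S => gg (extz x) S.1)
  rw [hrow] at hdet
  have ho : gg (extz x) o.1 = 1 := gg_empty _
  rw [ho, one_smul] at hdet
  rw [← hdet]
  -- block triangular
  let M : Matrix (J m) (J m) R := (HH x).updateRow o (fun T => if T = o then -p else 0)
  let b : J m → ℕ := fun S => if S = o then m else S.1.card
  have hlt : ∀ S : J m, S.1.card < m := by
    intro S
    have h1 : S.1.card ≤ m := by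
      have := Finset.card_le_univ S.1
      rwa [Fintype.card_fin] at this
    refine lt_of_le_of_ne h1 fun h => S.2 ?_
    exact Finset.eq_univ_of_card _ (by rw [h, Fintype.card_fin])
  have hMo : ∀ T, M o T = if T = o then -p else 0 := by
    intro T
    simp only [M, Matrix.updateRow_self]
  have hMS : ∀ S T, S ≠ o → M S T = HH x S T := by
    intro S T hS
    simp only [M, Matrix.updateRow_ne hS]
  have hdiag : ∀ S T, b T ≤ b S → S ≠ T → M S T = 0 := by
    intro S T hb hne
    by_cases hS : S = o
    · subst hS
      rw [hMo, if_neg (Ne.symm hne)]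
    · rw [hMS S T hS]
      by_cases hT : T = o
      · exfalso
        simp only [b, if_pos hT, if_neg hS] at hb
        have := hlt S
        omega
      · simp only [b, if_neg hT, if_neg hS] at hb
        have hT' : T.1 ≠ ∅ := fun h => hT (Subtype.ext h)
        simp only [HH]
        rw [if_neg (fun h => hne h.1), if_neg hT', arrow_eq_zero x (by omega)]
        ring
  have htri : M.BlockTriangular b := by
    intro S T hb
    refine hdiag S T hb.le ?_
    rintro rfl
    exact lt_irrefl _ hb
  change M.det = -p
  rw [htri.det]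
  have hsq : ∀ a, (M.toSquareBlock b a).det = ∏ S ∈ univ.filter (fun S => b S = a), M S S := by
    intro a
    have h1 : M.toSquareBlock b a = Matrix.diagonal (fun S => M S.1 S.1) := by
      ext S T
      by_cases hST : S = T
      · subst hST
        rw [Matrix.diagonal_apply_eq]
        rfl
      · rw [Matrix.diagonal_apply_ne _ hST]
        change M S.1 T.1 = 0
        refine hdiag _ _ ?_ (fun h => hST (Subtype.ext h))
        rw [S.2, T.2]
    rw [h1, Matrix.det_diagonal]
    rw [← Finset.prod_subtype (univ.filter (fun S => b S = a)) (fun S => by simp)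
      (fun S => M S S)]
  rw [Finset.prod_congr rfl fun a _ => hsq a]
  rw [Finset.prod_fiberwise_of_maps_to (fun S _ => Finset.mem_image_of_mem b (mem_univ S))]
  rw [Finset.prod_eq_single o]
  · rw [hMo, if_pos rfl]
  · intro S _ hS
    rw [hMS S S hS]
    have hS' : S.1 ≠ ∅ := fun h => hS (Subtype.ext h)
    simp only [HH]
    rw [if_pos ⟨trivial, hS'⟩, if_neg hS', arrow_eq_zero x (by omega)]
    ring
  · intro h
    exact absurd (mem_univ _) h

end Pool.Agent.H735R2.OneSym
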