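import Mathlib
import Pool.Agent.H735R2.OneSym.GrenetA
import Pool.Agent.H735R2.OneSym.Sym

/-!
Grenet's determinantal representation of the permanent: equivariance.
-/

namespace Pool.Agent.H735R2.OneSym

open Finset MvPolynomial

variable {m : ℕ} {F : Type*} [Field F]

theorem permanent_eq : (Matrix.of (fun i j : Fin m =>
    (X (i, j) : MvPolynomial (Fin m × Fin m) F))).permanent =
    ∑ σ : Equiv.Perm (Fin m), ∏ i, X (i, σ i) := by
  classical
  rw [← Matrix.permanent_transpose, Matrix.permanent]
  rfl

theorem arrow_mem (S T : Finset (Fin m)) :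
    arrow (fun i j => (X (i, j) : MvPolynomial (Fin m × Fin m) F)) S T ∈
      restrictTotalDegree (Fin m × Fin m) F 1 := by
  classical
  rw [arrow]
  refine Submodule.sum_mem _ fun j _ => ?_
  split_ifs
  · rw [extz]
    split_ifs
    · rw [mem_restrictTotalDegree, totalDegree_X]
    · exact Submodule.zero_mem _
  · exact Submodule.zero_mem _

theorem HH_mem (S T : J m) :
    HH (fun i j => (X (i, j) : MvPolynomial (Fin m × Fin m) F)) S T ∈
      restrictTotalDegree (Fin m × Fin m) F 1 := by
  classical
  rw [HH]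
  refine Submodule.sub_mem _ (Submodule.sub_mem _ ?_ (arrow_mem _ _)) ?_
  · split_ifs
    · rw [mem_restrictTotalDegree, totalDegree_one]
      exact Nat.zero_le _
    · exact Submodule.zero_mem _
  · split_ifs
    · exact arrow_mem _ _
    · exact Submodule.zero_mem _

/-- the weight of a vertex of the Boolean lattice -/
def wS (s t : Fin m → Fˣ) (S : Finset (Fin m)) : Fˣ :=
  (∏ i ∈ univ.filter (fun i : Fin m => i.1 < S.card), s i) * ∏ j ∈ S, t j

theorem scale_arrow (s t : Fin m → Fˣ) (S T : Finset (Fin m)) :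
    scale s t (arrow (fun i j => (X (i, j) : MvPolynomial (Fin m × Fin m) F)) S T) =
      C (((wS s t S)⁻¹ : Fˣ) : F) *
        arrow (fun i j => (X (i, j) : MvPolynomial (Fin m × Fin m) F)) S T *
        C ((wS s t T : Fˣ) : F) := by
  classical
  rw [arrow, map_sum, Finset.mul_sum, Finset.sum_mul]
  refine Finset.sum_congr rfl fun j _ => ?_
  split_ifs with h
  · obtain ⟨h1, h2⟩ := h
    rw [extz]
    have hlt : S.card < m := by
      have h3 : (insert j S).card ≤ m := by
        have := Finset.card_le_univ (insert j S)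
        rwa [Fintype.card_fin] at this
      rw [Finset.card_insert_of_notMem h1] at h3
      omega
    rw [dif_pos hlt, scale, aeval_X]
    have h4 : wS s t T = wS s t S * (s ⟨S.card, hlt⟩ * t j) := by
      rw [wS, wS, ← h2, Finset.card_insert_of_notMem h1, Finset.prod_insert h1]
      have h5 : univ.filter (fun i : Fin m => i.1 < S.card + 1) =
          insert ⟨S.card, hlt⟩ (univ.filter (fun i : Fin m => i.1 < S.card)) := by
        ext i
        simp only [mem_filter, mem_univ, true_and, mem_insert, Fin.ext_iff]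
        omega
      rw [h5, Finset.prod_insert (by simp)]
      ac_rfl
    have h6 : ((s ⟨S.card, hlt⟩ : F) * (t j : F)) =
        (((wS s t S)⁻¹ : Fˣ) : F) * ((wS s t T : Fˣ) : F) := by
      rw [h4, ← Units.val_mul, ← Units.val_mul]
      congr 1
      rw [inv_mul_cancel_left]
    rw [h6, C_mul]
    ring
  · simp

theorem scale_HH (s t : Fin m → Fˣ) (S T : J m) :
    scale s t (HH (fun i j => (X (i, j) : MvPolynomial (Fin m × Fin m) F)) S T) =
      C (((wS s t S.1)⁻¹ : Fˣ) : F) *
        HH (fun i j => (X (i, j) : MvPolynomial (Fin m × Fin m) F)) S T *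
        C (((if T.1 = ∅ then wS s t univ else wS s t T.1 : Fˣ)) : F) := by
  classical
  have hne : ∀ w : Fˣ, (C ((w⁻¹ : Fˣ) : F) : MvPolynomial (Fin m × Fin m) F) * C (w : F) = 1 := by
    intro w
    rw [← C_mul, ← Units.val_mul, inv_mul_cancel, Units.val_one, C_1]
  by_cases hT : T.1 = ∅
  · have h1 : arrow (fun i j => (X (i, j) : MvPolynomial (Fin m × Fin m) F)) S.1 T.1 = 0 := by
      apply arrow_eq_zero
      rw [hT, Finset.card_empty]
      omega
    simp only [HH]
    rw [if_neg (fun h => h.2 hT), if_pos hT, if_pos hT, h1, zero_sub, neg_zero, zero_sub, map_neg,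
      scale_arrow, mul_neg, neg_mul]
  · simp only [HH]
    rw [if_neg hT, if_neg hT, sub_zero, map_sub, scale_arrow, mul_sub, sub_mul]
    congr 1
    split_ifs with h
    · rw [← h.1, mul_one, hne, map_one]
    · simp

/-- Grenet's representation and its torus equivariance -/
theorem grenet (hm : 1 ≤ m) :
    ∃ G : Matrix (Fin (2 ^ m - 1)) (Fin (2 ^ m - 1)) (MvPolynomial (Fin m × Fin m) F),
      (∀ a b, (G a b).totalDegree ≤ 1) ∧
      G.det = (Matrix.of (fun i j : Fin m =>
        (X (i, j) : MvPolynomial (Fin m × Fin m) F))).permanent ∧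
      ∀ s t : Fin m → Fˣ, ∃ P Q : Matrix (Fin (2 ^ m - 1)) (Fin (2 ^ m - 1)) F,
        IsUnit P ∧ IsUnit Q ∧ G.map (scale s t) = P.map C * G * Q.map C := by
  classical
  let e : Fin (2 ^ m - 1) ≃ J m := (Fintype.equivFinOfCardEq card_J).symm
  let H : Matrix (J m) (J m) (MvPolynomial (Fin m × Fin m) F) :=
    HH (fun i j => (X (i, j) : MvPolynomial (Fin m × Fin m) F))
  refine ⟨(-H).submatrix e e, ?_, ?_, ?_⟩
  · intro a b
    rw [← mem_restrictTotalDegree]
    exact Submodule.neg_mem _ (HH_mem _ _)
  · rw [Matrix.det_submatrix_equiv_self, Matrix.det_neg, card_J, permanent_eq]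
    have h1 : Odd (2 ^ m - 1) := by
      refine Nat.Even.sub_odd Nat.one_le_two_pow ?_ odd_one
      exact (Nat.even_pow.mpr ⟨even_two, by omega⟩)
    rw [h1.neg_one_pow]
    have h2 := det_HH hm (fun i j => (X (i, j) : MvPolynomial (Fin m × Fin m) F))
    change -1 * H.det = _
    rw [h2]
    ring
  · intro s t
    refine ⟨Matrix.diagonal fun a => (((wS s t (e a).1)⁻¹ : Fˣ) : F),
      Matrix.diagonal fun a => (((if (e a).1 = ∅ then wS s t univ else wS s t (e a).1 : Fˣ)) : F),
      ?_, ?_, ?_⟩
    · rw [Matrix.isUnit_diagonal, Pi.isUnit_iff]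
      intro a
      exact Units.isUnit _
    · rw [Matrix.isUnit_diagonal, Pi.isUnit_iff]
      intro a
      exact Units.isUnit _
    · ext1 a b
      rw [Matrix.diagonal_map (map_zero _), Matrix.diagonal_map (map_zero _),
        Matrix.mul_diagonal, Matrix.diagonal_mul]
      have h1 : scale s t (-(H (e a) (e b))) = C (((wS s t (e a).1)⁻¹ : Fˣ) : F) *
          (-(H (e a) (e b))) *
          C (((if (e b).1 = ∅ then wS s t univ else wS s t (e b).1 : Fˣ)) : F) := by
        rw [map_neg, scale_HH]
        simp only [H]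
        ring
      exact h1

end Pool.Agent.H735R2.OneSym
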